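import Pool.Agent.CookLevin.Targets

set_option autoImplicit false

/-!
# COOK: problems in NP reduce to satisfiability
-/

namespace Pool.Agent.CookLevin

open Pool.Agent.PAH (DecisionProblem PolyReduces)
open Pool.Agent.SLN (Lit Satisfiable)
open Pool.Agent.PT (Dat PolyF Core)

/-- polynomials with natural coefficients are monotone -/
theorem eval_mono (p : Polynomial ℕ) {a b : ℕ} (h : a ≤ b) : p.eval a ≤ p.eval b := by
  induction p using Polynomial.induction_on' with
  | add p q hp hq =>
    rw [Polynomial.eval_add, Polynomial.eval_add]
    exact Nat.add_le_add hp hq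
  | monomial n c =>
    rw [Polynomial.eval_monomial, Polynomial.eval_monomial]
    exact Nat.mul_le_mul_left _ (Nat.pow_le_pow_left h n)

theorem tCOOK (h1 : T_SIM) (h2 : T_TABS) (h3 : T_TABC) (h4 : T_REN) : T_COOK := by
  classical
  intro P hP dP
  have := P.finite
  obtain ⟨R, q, hm, hY⟩ := hP
  obtain ⟨K, Γ, C, fK, fG, fC, A, i, o, p, ho, hA⟩ := h1 (encPair P) encBool R hm
  have := Fintype.ofFinite K
  have := Fintype.ofFinite Γ
  have := Fintype.ofFinite C
  let D : TD K Γ C := ⟨A, (Finset.univ : Finset C).toList, (Finset.univ : Finset K).toList,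
    (Finset.univ : Finset Γ).toList, i (Sum.inr false), i (Sum.inr true), o false⟩
  let T : Polynomial ℕ := p.comp (Polynomial.X + q)
  let B : Polynomial ℕ := Polynomial.X + q + T
  obtain ⟨F, hF, hFe⟩ := h4 D (fun d : P.Alphabet => i (Sum.inl d)) q T B
  refine ⟨F, hF, fun a => ?_⟩
  rw [hFe, hY]
  have hOk : D.Ok (o true) ((P.enc a).map fun d => i (Sum.inl d)) (q.eval (P.enc a).length)
      (T.eval (P.enc a).length) (B.eval (P.enc a).length) (fun w => R (a, w)) := by
    refine ⟨fun c => by simp [D], fun c => by simp [D], fun c => by simp [D], ?_, ?_, ?_⟩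
    · intro h
      exact absurd (ho h) (by decide)
    · simp [B]
    · intro w hw
      obtain ⟨n, hn, hh, hout⟩ := hA (a, w)
      have e1 : (encPair P (a, w)).map i = (P.enc a).map (fun d => i (Sum.inl d)) ++
          w.map fun b => if b then D.b1 else D.b0 := by
        simp only [encPair, List.map_append, List.map_map]
        congr 1
        apply List.map_congr_left
        intro b _
        cases b <;> simp [D]
      rw [e1] at hh hout
      refine ⟨n, hn.trans ?_, hh, ?_⟩
      · simp only [T, Polynomial.eval_comp, Polynomial.eval_add, Polynomial.eval_X]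
        apply eval_mono
        simp only [encPair, List.length_append, List.length_map]
        omega
      · refine hout.trans ?_
        simp only [encBool, List.map_cons, List.map_nil]
        cases R (a, w) <;> simp [D]
  constructor
  · intro h
    exact h3 D (o true) _ _ _ _ _ hOk h
  · intro h
    exact h2 D (o true) _ _ _ _ _ hOk h

end Pool.Agent.CookLevin
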