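import Pool.Agent.CookLevin.Targets

set_option autoImplicit false

/-!
# HARD: the general criterion for NP-hardness
-/

namespace Pool.Agent.CookLevin

open Pool.Agent.PAH (DecisionProblem PolyReduces)
open Pool.Agent.SLN (Lit Satisfiable)
open Pool.Agent.PT (Dat PolyF Core)

/-- a finite type has data -/
theorem exists_dat (Γ : Type) [Finite Γ] : Nonempty (Dat Γ) := by
  obtain ⟨n, ⟨e⟩⟩ := Finite.exists_equiv_fin Γ
  exact ⟨⟨fun a => Dat.enc (α := ℕ) ((e a : Fin n) : ℕ), fun a b h => by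
    have := Dat.inj (α := ℕ) h
    exact e.injective (Fin.ext this)⟩⟩

theorem tHARD (h1 : T_COOK) : T_HARD := by
  intro Q dQ f G hG hGe hf P hP
  have : Fact Core := ⟨Pool.Agent.PT.core⟩
  have := P.finite
  have := Q.finite
  obtain ⟨dP⟩ := exists_dat P.Alphabet
  obtain ⟨F, hF, hFe⟩ := h1 P hP
  have := Fintype.ofFinite P.Alphabet
  have := Fintype.ofFinite Q.Alphabet
  refine ⟨fun a => f (F (P.enc a)), ?_, fun a => (hFe a).trans (hf _)⟩
  exact Pool.Agent.PT.tm_of_polyF (F := fun w => G (F w)) (PolyF.comp hG hF) P.enc Q.enc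
    (fun a => f (F (P.enc a))) (fun a => hGe _)

end Pool.Agent.CookLevin
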