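import Pool.Agent.CookLevin.Targets

set_option autoImplicit false

/-!
# LEN: lists of polynomial length
-/

namespace Pool.Agent.CookLevin

open Pool.Agent.PT (Dat PolyF Core)

theorem tLEN : T_LEN := by
  intro Γ _ q
  have : Fact Core := ⟨Pool.Agent.PT.core⟩
  induction q using Polynomial.induction_on' with
  | add p q hp hq =>
    obtain ⟨L1, h1, e1⟩ := hp
    obtain ⟨L2, h2, e2⟩ := hq
    refine ⟨fun x => L1 x ++ L2 x, PolyF.append h1 h2, fun x => ?_⟩
    rw [List.length_append, e1, e2, Polynomial.eval_add]
  | monomial n a =>
    induction n with
    | zero =>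
      refine ⟨fun _ => List.replicate a (), PolyF.const _, fun x => ?_⟩
      simp
    | succ n ih =>
      obtain ⟨L, h1, e1⟩ := ih
      refine ⟨fun x => (L x).flatMap fun _ => x.map fun _ => (), ?_, fun x => ?_⟩
      · refine PolyF.flatMap (f := fun (x : List Γ) (_ : Unit) => x.map fun _ => ()) ?_ h1
        exact PolyF.map (f := fun (_ : List Γ × Unit) (_ : Γ) => ()) (PolyF.const _)
          (PolyF.fst PolyF.id)
      · rw [List.length_flatMap]
        have : (L x).map (fun _ => (x.map fun _ => ()).length) = List.replicate (L x).length x.length := by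
          rw [List.length_map, List.map_const']
        rw [this, List.sum_replicate, e1]
        simp only [Polynomial.eval_monomial, smul_eq_mul]
        ring

end Pool.Agent.CookLevin
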