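import Pool.Agent.CookLevin.Targets

set_option autoImplicit false
set_option linter.unusedSectionVars false

/-!
# CLV-REN: renaming of the variables, and polynomial time computability of the tableau
-/

namespace Pool.Agent.CookLevin

open Pool.Agent.SLN (Lit Satisfiable sd sd_inj bits_inj)
open Pool.Agent.PT (Dat PolyF PolyB D sz Core sz_pair sz_cons sz_nil sz_pos sz_reverse sz_append
  length_lt_sz sz_le_of_prefix val val_bits)

/-! ### The predecessor of a number -/

/-- binary digits of the predecessor; the flag says that one has to be subtracted -/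
def prR : List Bool → Bool → List Bool
  | [], _ => []
  | b :: l, c => (b != c) :: prR l (!b && c)

/-- one step of the computation of `prR` -/
def prS (s : Bool × List Bool) (b : Bool) : Bool × List Bool :=
  (!b && s.1, (b != s.1) :: s.2)

theorem prR_false (l : List Bool) : val (prR l false) = val l := by
  induction l with
  | nil => rfl
  | cons b l ih =>
    simp only [prR, val, Bool.and_false, ih]
    cases b <;> rfl

theorem prR_true (l : List Bool) : val (prR l true) = val l - 1 ∨ val l = 0 := by
  induction l with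
  | nil => right; rfl
  | cons b l ih =>
    cases b
    · rcases ih with ih | ih
      · by_cases h0 : val l = 0
        · right; simp [val, h0]
        · left
          simp only [prR, val, Bool.and_true, Bool.not_false, ih]
          simp
          omega
      · right; simp [val, ih]
    · left
      simp only [prR, val, Bool.not_true, Bool.false_and, prR_false]
      simp

theorem prS_foldl (l : List Bool) : ∀ (c : Bool) (o : List Bool),
    (l.foldl prS (c, o)).2 = (prR l c).reverse ++ o := by
  induction l with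
  | nil => intro c o; rfl
  | cons b l ih =>
    intro c o
    rw [List.foldl_cons]
    show (l.foldl prS (!b && c, (b != c) :: o)).2 = _
    rw [ih]
    simp [prR]

theorem sz_prS (l : List Bool) : ∀ s : Bool × List Bool,
    sz (l.foldl prS s) ≤ sz s + 10 * l.length := by
  induction l with
  | nil => intro s; simp
  | cons b l ih =>
    intro s
    rw [List.foldl_cons, List.length_cons]
    have h1 := ih (prS s b)
    have h2 : sz (prS s b) ≤ sz s + 10 := by
      obtain ⟨c, o⟩ := s
      have h3 := sz_pos o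
      have h4 := Pool.Agent.PT.sz_bool (!b && c)
      have h5 := Pool.Agent.PT.sz_bool (b != c)
      have h6 := sz_pos c
      simp only [prS, sz_pair, sz_cons]
      omega
    omega

section

variable {γ : Type} [Dat γ] [hC : Fact Core]

@[fun_prop] theorem bne_pt {f g : γ → Bool} (hf : PolyF f) (hg : PolyF g) :
    PolyF (fun x => (f x != g x)) := by
  have h : PolyF (fun x => !(decide (f x = g x))) := by fun_prop
  refine h.congr (fun x => ?_)
  cases f x <;> cases g x <;> rfl

@[fun_prop] theorem pred_pt {f : γ → ℕ} (hf : PolyF f) : PolyF (fun x => f x - 1) := by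
  have h1 : PolyF (fun l : List Bool => l.foldl prS (true, [])) := by
    refine PolyF.foldl (f := fun _ => prS) ?_ (by fun_prop) (by fun_prop)
      (fun w => sz (true, ([] : List Bool)) + 10 * sz w)
      ((PolyB.const _).add ((PolyB.const 10).mul PolyB.sz)) ?_
    · unfold prS; fun_prop
    · intro w l₁ hl₁
      have h1 := sz_prS l₁ (true, [])
      have h2 := length_lt_sz l₁
      have h3 := sz_le_of_prefix hl₁
      omega
  have h2 : PolyF (fun x => (f x).bits.foldl prS (true, [])) := h1.comp (by fun_prop)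
  have h3 : PolyF (fun x => cond (decide (f x = 0)) 0
      (val ((f x).bits.foldl prS (true, [])).2.reverse)) := by fun_prop
  refine h3.congr (fun x => ?_)
  by_cases h0 : f x = 0
  · rw [decide_eq_true h0, cond_true, h0]
  · rw [decide_eq_false h0, cond_false, prS_foldl, List.append_nil, List.reverse_reverse]
    rcases prR_true (f x).bits with h | h
    · rw [h, val_bits]
    · rw [val_bits] at h
      exact absurd h h0

@[fun_prop] theorem range_succ_pt {α : Type} [Dat α] {f : γ → List α} (hf : PolyF f) :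
    PolyF (fun x => List.range ((f x).length + 1)) := by
  have h : PolyF (fun x => List.range ((f x ++ (f x).take 1).length)) := by fun_prop
  by_cases he : Nonempty α
  · obtain ⟨a⟩ := he
    have h1 : PolyF (fun x => List.range (a :: f x).length) := by fun_prop
    exact h1
  · have h1 : PolyF (fun _ : γ => List.range 1) := by fun_prop
    refine h1.congr (fun x => ?_)
    have : f x = [] := by
      rcases hx : f x with _ | ⟨a, l⟩
      · rfl
      · exact absurd ⟨a⟩ he
    rw [this]
    rfl

end

/-! ### Numbered types -/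

/-- types with an injection into the natural numbers -/
class Numb (α : Type) where
  idx : α → ℕ
  inj : Function.Injective idx

instance {α : Type} [Numb α] : Dat α := ⟨fun x => Dat.enc (Numb.idx x), fun _ _ h =>
  Numb.inj (Dat.inj h)⟩

theorem numb_of_finite (α : Type) [Finite α] : Nonempty (Numb α) := by
  obtain ⟨n, ⟨e⟩⟩ := Finite.exists_equiv_fin α
  exact ⟨⟨fun x => (e x : ℕ), fun a b h => e.injective (Fin.ext h)⟩⟩

section
variable {K Γ C : Type} [Numb K] [Numb Γ] [Numb C]

/-- the variables as tuples of numbers -/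
def vt : Var K Γ C → ℕ × ℕ × ℕ × ℕ × ℕ
  | .X t c => (0, t, Numb.idx c, 0, 0)
  | .H t k h => (1, t, Numb.idx k, h, 0)
  | .S t k i b => (2, t, Numb.idx k, i, Numb.idx b)
  | .E m => (3, m, 0, 0, 0)

theorem vt_inj : Function.Injective (vt (K := K) (Γ := Γ) (C := C)) := by
  intro a b h
  cases a <;> cases b <;> simp only [vt, Prod.mk.injEq, Var.X.injEq, Var.H.injEq, Var.S.injEq,
    Var.E.injEq, Numb.inj.eq_iff] at h ⊢ <;> tauto

instance : Dat (Var K Γ C) := ⟨fun v => Dat.enc (vt v), fun _ _ h => vt_inj (Dat.inj h)⟩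

/-- names of tuples -/
def tname (z : ℕ × ℕ × ℕ × ℕ × ℕ) : List Bool :=
  sd z.1.bits ++ (sd z.2.1.bits ++ (sd z.2.2.1.bits ++ (sd z.2.2.2.1.bits ++ z.2.2.2.2.bits)))

theorem tname_inj : Function.Injective tname := by
  rintro ⟨a, b, c, d, e⟩ ⟨a', b', c', d', e'⟩ h
  unfold tname at h
  obtain ⟨h1, h⟩ := sd_inj h
  obtain ⟨h2, h⟩ := sd_inj h
  obtain ⟨h3, h⟩ := sd_inj h
  obtain ⟨h4, h⟩ := sd_inj h
  have e1 : a = a' := bits_inj h1
  have e2 : b = b' := bits_inj h2
  have e3 : c = c' := bits_inj h3
  have e4 : d = d' := bits_inj h4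
  have e5 : e = e' := bits_inj h
  rw [e1, e2, e3, e4, e5]

/-- names of variables -/
def nm (v : Var K Γ C) : List Bool := tname (vt v)

theorem nm_inj : Function.Injective (nm (K := K) (Γ := Γ) (C := C)) :=
  tname_inj.comp vt_inj

/-- renamed literals -/
def rl (l : Bool × Var K Γ C) : Lit := (l.1, nm l.2)

end

section
variable {K Γ C γ : Type} [Numb K] [Numb Γ] [Numb C] [Dat γ] [hC : Fact Core]

omit hC in
@[fun_prop] theorem idx_pt {α : Type} [Numb α] {f : γ → α} (hf : PolyF f) :
    PolyF (fun x => Numb.idx (f x)) := by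
  obtain ⟨g, hg, hg'⟩ := hf
  exact ⟨g, hg, hg'⟩

omit hC in
@[fun_prop] theorem vt_pt {f : γ → Var K Γ C} (hf : PolyF f) : PolyF (fun x => vt (f x)) := by
  obtain ⟨g, hg, hg'⟩ := hf
  exact ⟨g, hg, hg'⟩

omit hC in
theorem of_vt {f : γ → Var K Γ C} (hf : PolyF (fun x => vt (f x))) : PolyF f := by
  obtain ⟨g, hg, hg'⟩ := hf
  exact ⟨g, hg, hg'⟩

@[fun_prop] theorem X_pt {t : γ → ℕ} {c : γ → C} (ht : PolyF t) (hc : PolyF c) :
    PolyF (fun x => (Var.X (t x) (c x) : Var K Γ C)) := by
  refine of_vt ?_
  show PolyF (fun x => (0, t x, Numb.idx (c x), 0, 0))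
  fun_prop

@[fun_prop] theorem H_pt {t h : γ → ℕ} {k : γ → K} (ht : PolyF t) (hk : PolyF k) (hh : PolyF h) :
    PolyF (fun x => (Var.H (t x) (k x) (h x) : Var K Γ C)) := by
  refine of_vt ?_
  show PolyF (fun x => (1, t x, Numb.idx (k x), h x, 0))
  fun_prop

@[fun_prop] theorem S_pt {t i : γ → ℕ} {k : γ → K} {b : γ → Γ} (ht : PolyF t) (hk : PolyF k)
    (hi : PolyF i) (hb : PolyF b) :
    PolyF (fun x => (Var.S (t x) (k x) (i x) (b x) : Var K Γ C)) := by
  refine of_vt ?_
  show PolyF (fun x => (2, t x, Numb.idx (k x), i x, Numb.idx (b x)))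
  fun_prop

@[fun_prop] theorem E_pt {m : γ → ℕ} (hm : PolyF m) :
    PolyF (fun x => (Var.E (m x) : Var K Γ C)) := by
  refine of_vt ?_
  show PolyF (fun x => (3, m x, 0, 0, 0))
  fun_prop

@[fun_prop] theorem nm_pt {f : γ → Var K Γ C} (hf : PolyF f) : PolyF (fun x => nm (f x)) := by
  unfold nm tname; fun_prop

@[fun_prop] theorem rl_pt {f : γ → Bool × Var K Γ C} (hf : PolyF f) :
    PolyF (fun x => rl (f x)) := by
  unfold rl; fun_prop

end

/-! ### The machine and the tableau -/

section
variable {K Γ C : Type}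

/-- the letter which is pushed -/
def pushed (A : SM K Γ C) (c : C) : List Γ :=
  match A.act c with
  | some (some a) => [a]
  | _ => []

variable [DecidableEq K]

/-- the stack `k` is popped -/
def popk (A : SM K Γ C) (c : C) (k : K) : Bool :=
  decide (k = A.stk c) && (match A.act c with
    | some none => true
    | _ => false)

/-- something is pushed on the stack `k` -/
def pushk (A : SM K Γ C) (c : C) (k : K) : Bool :=
  decide (k = A.stk c) && (match A.act c with
    | some (some _) => true
    | _ => false)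

theorem newh_eq (A : SM K Γ C) (c : C) (k : K) (h : ℕ) :
    cond (popk A c k) (h - 1) (cond (pushk A c k) (h + 1) h) = A.newh c k h := by
  unfold popk pushk SM.newh
  by_cases hk : k = A.stk c
  · rw [if_pos hk, decide_eq_true hk, Bool.true_and, Bool.true_and]
    rcases A.act c with _ | _ | a <;> rfl
  · rw [if_neg hk, decide_eq_false hk, Bool.false_and, Bool.false_and]
    rfl

theorem keep_eq (A : SM K Γ C) (c : C) (k : K) (h : ℕ) :
    cond (popk A c k) (h - 1) h = A.keep c k h := by
  unfold popk SM.keep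
  by_cases hk : k = A.stk c
  · rw [if_pos hk, decide_eq_true hk, Bool.true_and]
    rcases A.act c with _ | _ | a <;> rfl
  · rw [if_neg hk, decide_eq_false hk, Bool.false_and]
    rfl

end

section
variable {K Γ C γ : Type} [Finite K] [Finite Γ] [Finite C] [Numb K] [Numb Γ] [Numb C]
  [Dat γ] [hC : Fact Core]

@[fun_prop] theorem stk_pt (A : SM K Γ C) {c : γ → C} (hc : PolyF c) :
    PolyF (fun x => A.stk (c x)) := (PolyF.finite A.stk).comp hc

@[fun_prop] theorem some_pt {b : γ → Γ} (hb : PolyF b) : PolyF (fun x => some (b x)) :=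
  (PolyF.finite (fun b : Γ => some b)).comp hb

@[fun_prop] theorem nxt_pt (A : SM K Γ C) {c : γ → C} {o : γ → Option Γ} (hc : PolyF c)
    (ho : PolyF o) : PolyF (fun x => A.nxt (c x) (o x)) :=
  (PolyF.finite (fun p : C × Option Γ => A.nxt p.1 p.2)).comp (hc.pair ho)

@[fun_prop] theorem halted_pt (A : SM K Γ C) {c : γ → C} (hc : PolyF c) :
    PolyF (fun x => A.halted (c x)) := (PolyF.finite A.halted).comp hc

@[fun_prop] theorem pushed_pt (A : SM K Γ C) {c : γ → C} (hc : PolyF c) :
    PolyF (fun x => pushed A (c x)) := (PolyF.finite (pushed A)).comp hc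

variable [DecidableEq K]

@[fun_prop] theorem newh_pt (A : SM K Γ C) {c : γ → C} {k : γ → K} {h : γ → ℕ} (hc : PolyF c)
    (hk : PolyF k) (hh : PolyF h) : PolyF (fun x => A.newh (c x) (k x) (h x)) := by
  have h1 : PolyF (fun x => popk A (c x) (k x)) :=
    (PolyF.finite (fun p : C × K => popk A p.1 p.2)).comp (hc.pair hk)
  have h2 : PolyF (fun x => pushk A (c x) (k x)) :=
    (PolyF.finite (fun p : C × K => pushk A p.1 p.2)).comp (hc.pair hk)
  have h3 : PolyF (fun x => cond (popk A (c x) (k x)) (h x - 1)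
      (cond (pushk A (c x) (k x)) (h x + 1) (h x))) := by fun_prop
  exact h3.congr (fun x => newh_eq _ _ _ _)

@[fun_prop] theorem keep_pt (A : SM K Γ C) {c : γ → C} {k : γ → K} {h : γ → ℕ} (hc : PolyF c)
    (hk : PolyF k) (hh : PolyF h) : PolyF (fun x => A.keep (c x) (k x) (h x)) := by
  have h1 : PolyF (fun x => popk A (c x) (k x)) :=
    (PolyF.finite (fun p : C × K => popk A p.1 p.2)).comp (hc.pair hk)
  have h3 : PolyF (fun x => cond (popk A (c x) (k x)) (h x - 1) (h x)) := by fun_prop
  exact h3.congr (fun x => keep_eq _ _ _ _)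

theorem ini_pt (D : TD K Γ C) {x : γ → List Γ} {L : γ → List Unit} (hx : PolyF x)
    (hL : PolyF L) : PolyF (fun y => D.ini (x y) (L y).length) := by
  unfold TD.ini
  fun_prop

theorem stp_pt (D : TD K Γ C) {B : γ → List Unit} {t : γ → ℕ} {c : γ → C} (hB : PolyF B)
    (ht : PolyF t) (hc : PolyF c) : PolyF (fun y => D.stp (B y).length (t y) (c y)) := by
  have h : PolyF (fun y =>
      [[(false, (Var.X (t y) (c y) : Var K Γ C)), (false, Var.H (t y) (D.A.stk (c y)) 0),
        (true, Var.X ((t y) + 1) (D.A.nxt (c y) none))]] ++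
      (List.range ((B y).length + 1)).flatMap (fun h =>
        D.Gs.map (fun b => [(false, Var.X (t y) (c y)), (false, Var.H (t y) (D.A.stk (c y)) (h + 1)),
          (false, Var.S (t y) (D.A.stk (c y)) h b),
          (true, Var.X ((t y) + 1) (D.A.nxt (c y) (some b)))]) ++
        D.Ks.flatMap (fun k =>
          [(false, Var.X (t y) (c y)), (false, Var.H (t y) k h),
            (true, Var.H ((t y) + 1) k (D.A.newh (c y) k h))] ::
          ((List.range ((B y).length + 1)).filter fun i =>
            decide (i < D.A.keep (c y) k h)).flatMap fun i =>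
            D.Gs.map fun b => [(false, Var.X (t y) (c y)), (false, Var.H (t y) k h),
              (false, Var.S (t y) k i b), (true, Var.S ((t y) + 1) k i b)]) ++
        (pushed D.A (c y)).map (fun a => [(false, Var.X (t y) (c y)),
          (false, Var.H (t y) (D.A.stk (c y)) h),
          (true, Var.S ((t y) + 1) (D.A.stk (c y)) h a)]))) := by
    fun_prop
  refine h.congr (fun y => ?_)
  unfold TD.stp pushed
  rcases D.A.act (c y) with _ | _ | a <;> rfl

theorem tab_pt (D : TD K Γ C) {x : γ → List Γ} {q T B : γ → List Unit} (hx : PolyF x)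
    (hq : PolyF q) (hT : PolyF T) (hB : PolyF B) :
    PolyF (fun y => D.tab (x y) (q y).length (T y).length (B y).length) := by
  have h1 := ini_pt D hx hq
  have h2 : PolyF (fun p : γ × ℕ × C => D.stp (B p.1).length p.2.1 p.2.2) :=
    stp_pt D (by fun_prop) (by fun_prop) (by fun_prop)
  have h3 : PolyF (fun p : γ × ℕ × C => if D.A.halted p.2.2 = true then
      [[(false, Var.X p.2.1 p.2.2), (false, Var.S p.2.1 D.A.out 0 D.rej)]]
      else D.stp (B p.1).length p.2.1 p.2.2) := by fun_prop
  have h4 : PolyF (fun p : γ × ℕ => D.Cs.flatMap fun c => if D.A.halted c = true then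
      [[(false, Var.X p.2 c), (false, Var.S p.2 D.A.out 0 D.rej)]]
      else D.stp (B p.1).length p.2 c) :=
    PolyF.flatMap (h3.comp (g := fun p : (γ × ℕ) × C => (p.1.1, p.1.2, p.2)) (by fun_prop))
      (by fun_prop)
  have h5 : PolyF (fun y => (List.range ((T y).length + 1)).flatMap fun t =>
      D.Cs.flatMap fun c => if D.A.halted c = true then
      [[(false, Var.X t c), (false, Var.S t D.A.out 0 D.rej)]]
      else D.stp (B y).length t c) :=
    PolyF.flatMap (f := fun y t => D.Cs.flatMap fun c => if D.A.halted c = true then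
      [[(false, Var.X t c), (false, Var.S t D.A.out 0 D.rej)]]
      else D.stp (B y).length t c) h4 (by fun_prop)
  exact h1.append h5

end

/-! ### Satisfiability after renaming -/

theorem sat_rename {K Γ C : Type} [Numb K] [Numb Γ] [Numb C]
    (φ : List (List (Bool × Var K Γ C))) :
    Satisfiable (φ.map (fun c => c.map rl)) ↔ Sat φ := by
  classical
  constructor
  · rintro ⟨τ, hτ⟩
    refine ⟨fun v => τ (nm v), fun c hc => ?_⟩
    obtain ⟨l, hl, h⟩ := hτ _ (List.mem_map_of_mem hc)
    obtain ⟨m, hm, rfl⟩ := List.mem_map.1 hl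
    exact ⟨m, hm, h⟩
  · rintro ⟨τ, hτ⟩
    refine ⟨fun x => if h : ∃ v : Var K Γ C, nm v = x then τ h.choose else false, ?_⟩
    intro c hc
    obtain ⟨d, hd, rfl⟩ := List.mem_map.1 hc
    obtain ⟨l, hl, h⟩ := hτ d hd
    refine ⟨rl l, List.mem_map_of_mem hl, ?_⟩
    have hex : ∃ v : Var K Γ C, nm v = (rl l).2 := ⟨l.2, rfl⟩
    show (if h : ∃ v : Var K Γ C, nm v = (rl l).2 then τ h.choose else false) = l.1
    rw [dif_pos hex, nm_inj (hex.choose_spec.trans (rfl : (rl l).2 = nm l.2)), h]

theorem tREN_aux [Fact Core] (h1 : T_LEN) : T_REN := by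
  intro K Γ C Δ _ _ _ _ _ _ D i q T B
  obtain ⟨nK⟩ := numb_of_finite K
  obtain ⟨nΓ⟩ := numb_of_finite Γ
  obtain ⟨nC⟩ := numb_of_finite C
  obtain ⟨Lq, hq, hq'⟩ := h1 (Γ := Δ) q
  obtain ⟨LT, hT, hT'⟩ := h1 (Γ := Δ) T
  obtain ⟨LB, hB, hB'⟩ := h1 (Γ := Δ) B
  have hi : PolyF (fun x : List Δ => x.map i) :=
    PolyF.map (f := fun _ : List Δ => i) ((PolyF.finite i).comp (PolyF.snd PolyF.id)) PolyF.id
  have h2 := tab_pt D hi hq hT hB
  refine ⟨fun x => (D.tab (x.map i) (q.eval x.length) (T.eval x.length)
    (B.eval x.length)).map (fun c => c.map rl), ?_, fun x => sat_rename _⟩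
  have h3 : PolyF (fun x => (D.tab (x.map i) (Lq x).length (LT x).length
    (LB x).length).map (fun c => c.map rl)) :=
    PolyF.map (f := fun (_ : List Δ) (c : List (Bool × Var K Γ C)) => c.map rl)
      (by fun_prop) h2
  refine h3.congr (fun x => ?_)
  rw [hq', hT', hB']

theorem tREN (h1 : T_LEN) : T_REN :=
  haveI : Fact Core := ⟨Pool.Agent.PT.core⟩
  tREN_aux h1

end Pool.Agent.CookLevin
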