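import Pool.Agent.CookLevin.Targets

set_option autoImplicit false

/-!
# TABC: completeness of the tableau
-/

namespace Pool.Agent.CookLevin

section
variable {K Γ C : Type}

theorem step_fst (A : SM K Γ C) (x : C × (K → List Γ)) (h : ¬ A.halted x.1 = true) :
    (A.step x).1 = A.nxt x.1 (x.2 (A.stk x.1)).head? := by
  rw [SM.step, if_neg h]

theorem step_stk (A : SM K Γ C) (x : C × (K → List Γ)) (h : ¬ A.halted x.1 = true) :
    (A.step x).2 (A.stk x.1) = newStk (A.act x.1) (x.2 (A.stk x.1)) := by
  rw [SM.step, if_neg h]
  simp

theorem step_ne (A : SM K Γ C) (x : C × (K → List Γ)) (h : ¬ A.halted x.1 = true) (k : K)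
    (hk : k ≠ A.stk x.1) : (A.step x).2 k = x.2 k := by
  rw [SM.step, if_neg h]
  simp [hk]

theorem init_inp (A : SM K Γ C) (l : List Γ) : (A.init l).2 A.inp = l := by
  rw [SM.init]
  simp

theorem init_ne (A : SM K Γ C) (l : List Γ) (k : K) (hk : k ≠ A.inp) : (A.init l).2 k = [] := by
  rw [SM.init]
  simp [hk]

theorem step_halted (A : SM K Γ C) (x : C × (K → List Γ)) (h : A.halted x.1 = true) :
    A.step x = x := by
  rw [SM.step, if_pos h]

theorem run_succ (A : SM K Γ C) (n : ℕ) (x : C × (K → List Γ)) :
    A.run (n + 1) x = A.step (A.run n x) := Function.iterate_succ_apply' _ _ _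

theorem run_halted (A : SM K Γ C) (n : ℕ) (x : C × (K → List Γ))
    (h : A.halted (A.run n x).1 = true) (m : ℕ) : A.run (n + m) x = A.run n x := by
  induction m with
  | zero => rfl
  | succ m ih => rw [← Nat.add_assoc, run_succ, ih, step_halted A _ h]

theorem head_of_reverse {l : List Γ} {h : ℕ} {b : Γ} (hl : h + 1 = l.length)
    (hb : l.reverse[h]? = some b) : l.head? = some b := by
  cases l with
  | nil => simp at hl
  | cons a l =>
    rw [List.reverse_cons] at hb
    simp only [List.length_cons, Nat.add_right_cancel_iff] at hl
    subst hl
    rw [List.getElem?_append_right (by simp)] at hb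
    simpa using hb

theorem keep_getElem [DecidableEq K] (A : SM K Γ C) (x : C × (K → List Γ))
    (h : ¬ A.halted x.1 = true) (k : K) (i : ℕ) (hi : i < A.keep x.1 k (x.2 k).length) :
    ((A.step x).2 k).reverse[i]? = (x.2 k).reverse[i]? := by
  by_cases hk : k = A.stk x.1
  · unfold SM.keep at hi
    rw [if_pos hk] at hi
    subst hk
    rw [step_stk A x h]
    cases ha : A.act x.1 with
    | none => rfl
    | some o =>
      cases o with
      | none =>
        rw [ha] at hi
        simp only [newStk]
        cases hl : x.2 (A.stk x.1) with
        | nil => rfl
        | cons a l =>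
          rw [hl] at hi
          simp only [List.length_cons, Nat.add_sub_cancel] at hi
          rw [List.tail_cons, List.reverse_cons, List.getElem?_append_left (by simpa using hi)]
      | some a =>
        rw [ha] at hi
        simp only [newStk]
        rw [List.reverse_cons, List.getElem?_append_left (by simpa using hi)]
  · rw [step_ne A x h k hk]

theorem newh_length [DecidableEq K] (A : SM K Γ C) (x : C × (K → List Γ))
    (h : ¬ A.halted x.1 = true) (k : K) :
    A.newh x.1 k (x.2 k).length = ((A.step x).2 k).length := by
  by_cases hk : k = A.stk x.1
  · unfold SM.newh
    rw [if_pos hk]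
    subst hk
    rw [step_stk A x h]
    cases ha : A.act x.1 with
    | none => rfl
    | some o =>
      cases o with
      | none => simp [newStk]
      | some a => simp [newStk]
  · unfold SM.newh
    rw [if_neg hk, step_ne A x h k hk]

end

theorem tTABC : T_TABC := by
  classical
  intro K Γ C _ D acc x q T B V hD hw
  obtain ⟨w, hwq, hVw⟩ := hw
  obtain ⟨n, hnT, hhalt, hout⟩ := hD.run w hwq
  rw [hVw] at hout
  simp only [if_true] at hout
  set l0 : List Γ := x ++ w.map fun b => if b then D.b1 else D.b0 with hl0
  let cf : ℕ → C × (K → List Γ) := fun t => D.A.run t (D.A.init l0)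
  have hcf0 : cf 0 = D.A.init l0 := rfl
  have hcfs : ∀ t, cf (t + 1) = D.A.step (cf t) := fun t => run_succ _ _ _
  have hc0 : (cf 0).1 = D.A.start := rfl
  have hinp : (cf 0).2 D.A.inp = l0 := init_inp _ _
  have hnin : ∀ k, k ≠ D.A.inp → (cf 0).2 k = [] := fun k hk => init_ne _ _ k hk
  have hrev : l0.reverse = (w.map fun b => if b then D.b1 else D.b0).reverse ++ x.reverse := by
    rw [hl0, List.reverse_append]
  have hlen : l0.length = w.length + x.length := by
    rw [hl0, List.length_append, List.length_map]; omega
  let τ : Var K Γ C → Bool := fun v => match v with
    | Var.X t c => decide (c = (cf t).1)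
    | Var.H t k h => decide (h = ((cf t).2 k).length)
    | Var.S t k i b => decide (((cf t).2 k).reverse[i]? = some b)
    | Var.E m => decide (m = w.length)
  have τX : ∀ t c, τ (Var.X t c) = decide (c = (cf t).1) := fun _ _ => rfl
  have τH : ∀ t k h, τ (Var.H t k h) = decide (h = ((cf t).2 k).length) := fun _ _ _ => rfl
  have τS : ∀ t k i b, τ (Var.S t k i b) = decide (((cf t).2 k).reverse[i]? = some b) :=
    fun _ _ _ _ => rfl
  have τE : ∀ m, τ (Var.E m) = decide (m = w.length) := fun _ => rfl
  refine ⟨τ, ?_⟩
  intro cl hcl
  rw [TD.tab, List.mem_append] at hcl
  rcases hcl with hcl | hcl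
  · -- initial clauses
    rw [TD.ini, List.mem_append, List.mem_append] at hcl
    rcases hcl with (hcl | hcl) | hcl
    · simp only [List.mem_cons, List.not_mem_nil, or_false] at hcl
      rcases hcl with rfl | rfl
      · refine ⟨(true, Var.E w.length), ?_, ?_⟩
        · rw [List.mem_map]
          exact ⟨w.length, by rw [List.mem_range]; omega, rfl⟩
        · rw [τE]; simp
      · refine ⟨_, List.mem_cons_self, ?_⟩
        show τ (Var.X 0 D.A.start) = true
        rw [τX, hc0]; simp
    · rw [List.mem_map] at hcl
      obtain ⟨k, hk, rfl⟩ := hcl
      rw [List.mem_filter] at hk
      refine ⟨_, List.mem_cons_self, ?_⟩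
      show τ (Var.H 0 k 0) = true
      rw [τH, hnin k (by simpa using hk.2)]
      simp
    · rw [List.mem_flatMap] at hcl
      obtain ⟨m, hm, hcl⟩ := hcl
      by_cases hmw : m = w.length
      · subst hmw
        rw [List.mem_cons, List.mem_append] at hcl
        rcases hcl with rfl | hcl | hcl
        · refine ⟨(true, Var.H 0 D.A.inp (w.length + x.length)), by simp, ?_⟩
          show τ (Var.H 0 D.A.inp (w.length + x.length)) = true
          rw [τH, hinp, hlen]; simp
        · rw [List.mem_map] at hcl
          obtain ⟨p, hp, rfl⟩ := hcl
          refine ⟨(true, Var.S 0 D.A.inp (w.length + p.1) p.2), by simp, ?_⟩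
          show τ (Var.S 0 D.A.inp (w.length + p.1) p.2) = true
          rw [τS, hinp, hrev, List.getElem?_append_right (by simp)]
          simp only [List.length_reverse, List.length_map, Nat.add_sub_cancel_left]
          obtain ⟨j, hj, hpj⟩ := List.mem_iff_getElem.mp hp
          have h1 : p = ((List.range x.length)[j]'(by
              rw [List.length_zip] at hj; omega), x.reverse[j]'(by
              rw [List.length_zip] at hj; omega)) := by
            rw [← hpj, List.getElem_zip]
          rw [h1]
          simp only [List.getElem_range]
          rw [List.getElem?_eq_getElem (by rw [List.length_zip] at hj; omega)]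
          simp
        · rw [List.mem_map] at hcl
          obtain ⟨i, hi, rfl⟩ := hcl
          rw [List.mem_filter] at hi
          have hi2 : i < w.length := by simpa using hi.2
          have h1 : l0.reverse[i]? = some (if (w.reverse[i]'(by simpa using hi2)) then D.b1
              else D.b0) := by
            rw [hrev, List.getElem?_append_left (by simpa using hi2), ← List.map_reverse,
              List.getElem?_map, List.getElem?_eq_getElem (by simpa using hi2)]
            rfl
          cases hb : w.reverse[i]'(by simpa using hi2) with
          | true =>
            refine ⟨(true, Var.S 0 D.A.inp i D.b1), by simp, ?_⟩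
            show τ (Var.S 0 D.A.inp i D.b1) = true
            rw [τS, hinp, h1, hb]; simp
          | false =>
            refine ⟨(true, Var.S 0 D.A.inp i D.b0), by simp, ?_⟩
            show τ (Var.S 0 D.A.inp i D.b0) = true
            rw [τS, hinp, h1, hb]; simp
      · have h2 : (false, Var.E m) ∈ cl := by
          rw [List.mem_cons, List.mem_append] at hcl
          rcases hcl with rfl | hcl | hcl
          · simp
          · rw [List.mem_map] at hcl
            obtain ⟨p, _, rfl⟩ := hcl
            simp
          · rw [List.mem_map] at hcl
            obtain ⟨i, _, rfl⟩ := hcl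
            simp
        refine ⟨_, h2, ?_⟩
        show τ (Var.E m) = false
        rw [τE]; simpa using hmw
  · rw [List.mem_flatMap] at hcl
    obtain ⟨t, ht, hcl⟩ := hcl
    rw [List.mem_flatMap] at hcl
    obtain ⟨c, hc, hcl⟩ := hcl
    by_cases hct : c = (cf t).1
    · by_cases hh : D.A.halted c = true
      · rw [if_pos hh, List.mem_singleton] at hcl
        subst hcl
        refine ⟨(false, Var.S t D.A.out 0 D.rej), by simp, ?_⟩
        show τ (Var.S t D.A.out 0 D.rej) = false
        have h3 : (cf t).2 D.A.out = [acc] := by
          rw [hct] at hh
          rcases le_total t n with htn | htn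
          · obtain ⟨m, rfl⟩ := Nat.exists_eq_add_of_le htn
            rw [← hout]
            exact (congrArg (fun z => z.2 D.A.out) (run_halted D.A t (D.A.init l0) hh m)).symm
          · obtain ⟨m, rfl⟩ := Nat.exists_eq_add_of_le htn
            rw [← hout]
            exact congrArg (fun z => z.2 D.A.out) (run_halted D.A n (D.A.init l0) hhalt m)
        rw [τS, h3]
        simp [hD.ne]
      · rw [if_neg hh] at hcl
        have hh' : ¬ D.A.halted (cf t).1 = true := by rw [← hct]; exact hh
        have hnx : (cf (t + 1)).1 = D.A.nxt c ((cf t).2 (D.A.stk c)).head? := by
          rw [hcfs, step_fst D.A _ hh', ← hct]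
        rw [TD.stp, List.mem_append] at hcl
        rcases hcl with hcl | hcl
        · rw [List.mem_singleton] at hcl
          subst hcl
          by_cases h4 : 0 = ((cf t).2 (D.A.stk c)).length
          · refine ⟨(true, Var.X (t + 1) (D.A.nxt c none)), by simp, ?_⟩
            show τ (Var.X (t + 1) (D.A.nxt c none)) = true
            rw [τX, hnx, List.eq_nil_of_length_eq_zero h4.symm]
            simp
          · refine ⟨(false, Var.H t (D.A.stk c) 0), by simp, ?_⟩
            show τ (Var.H t (D.A.stk c) 0) = false
            rw [τH]; simpa using h4
        · rw [List.mem_flatMap] at hcl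
          obtain ⟨h, hhB, hcl⟩ := hcl
          rw [List.mem_append, List.mem_append] at hcl
          rcases hcl with (hcl | hcl) | hcl
          · rw [List.mem_map] at hcl
            obtain ⟨b, hb, rfl⟩ := hcl
            by_cases h4 : h + 1 = ((cf t).2 (D.A.stk c)).length
            · by_cases h5 : ((cf t).2 (D.A.stk c)).reverse[h]? = some b
              · refine ⟨(true, Var.X (t + 1) (D.A.nxt c (some b))), by simp, ?_⟩
                show τ (Var.X (t + 1) (D.A.nxt c (some b))) = true
                rw [τX, hnx, head_of_reverse h4 h5]
                simp
              · refine ⟨(false, Var.S t (D.A.stk c) h b), by simp, ?_⟩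
                show τ (Var.S t (D.A.stk c) h b) = false
                rw [τS]; exact decide_eq_false h5
            · refine ⟨(false, Var.H t (D.A.stk c) (h + 1)), by simp, ?_⟩
              show τ (Var.H t (D.A.stk c) (h + 1)) = false
              rw [τH]; exact decide_eq_false h4
          · rw [List.mem_flatMap] at hcl
            obtain ⟨k, hk, hcl⟩ := hcl
            by_cases h4 : h = ((cf t).2 k).length
            · rw [List.mem_cons] at hcl
              rcases hcl with rfl | hcl
              · refine ⟨(true, Var.H (t + 1) k (D.A.newh c k h)), by simp, ?_⟩
                show τ (Var.H (t + 1) k (D.A.newh c k h)) = true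
                rw [τH, hcfs, ← newh_length D.A _ hh' k, ← hct, ← h4]
                simp
              · rw [List.mem_flatMap] at hcl
                obtain ⟨i, hi, hcl⟩ := hcl
                rw [List.mem_map] at hcl
                obtain ⟨b, hb, rfl⟩ := hcl
                rw [List.mem_filter] at hi
                have hi2 : i < D.A.keep c k h := by simpa using hi.2
                by_cases h5 : ((cf t).2 k).reverse[i]? = some b
                · refine ⟨(true, Var.S (t + 1) k i b), by simp, ?_⟩
                  show τ (Var.S (t + 1) k i b) = true
                  rw [hct, h4] at hi2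
                  rw [τS, hcfs, keep_getElem D.A _ hh' k i hi2, h5]
                  simp
                · refine ⟨(false, Var.S t k i b), by simp, ?_⟩
                  show τ (Var.S t k i b) = false
                  rw [τS]; exact decide_eq_false h5
            · have h2 : (false, Var.H t k h) ∈ cl := by
                rw [List.mem_cons] at hcl
                rcases hcl with rfl | hcl
                · simp
                · rw [List.mem_flatMap] at hcl
                  obtain ⟨i, hi, hcl⟩ := hcl
                  rw [List.mem_map] at hcl
                  obtain ⟨b, hb, rfl⟩ := hcl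
                  simp
              refine ⟨_, h2, ?_⟩
              show τ (Var.H t k h) = false
              rw [τH]; exact decide_eq_false h4
          · cases ha : D.A.act c with
            | none => rw [ha] at hcl; simp at hcl
            | some o =>
              cases o with
              | none => rw [ha] at hcl; simp at hcl
              | some a =>
                rw [ha] at hcl
                simp only [List.mem_singleton] at hcl
                subst hcl
                by_cases h4 : h = ((cf t).2 (D.A.stk c)).length
                · refine ⟨(true, Var.S (t + 1) (D.A.stk c) h a), by simp, ?_⟩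
                  show τ (Var.S (t + 1) (D.A.stk c) h a) = true
                  have h6 : (cf (t + 1)).2 (D.A.stk c) = a :: (cf t).2 (D.A.stk c) := by
                    rw [hcfs, hct, step_stk D.A _ hh', ← hct, ha]
                    rfl
                  rw [τS, h6, List.reverse_cons, h4, List.getElem?_append_right (by simp)]
                  simp
                · refine ⟨(false, Var.H t (D.A.stk c) h), by simp, ?_⟩
                  show τ (Var.H t (D.A.stk c) h) = false
                  rw [τH]; exact decide_eq_false h4
    · have h2 : (false, Var.X t c) ∈ cl := by
        by_cases hh : D.A.halted c = true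
        · rw [if_pos hh, List.mem_singleton] at hcl
          subst hcl
          simp
        · rw [if_neg hh, TD.stp, List.mem_append] at hcl
          rcases hcl with hcl | hcl
          · rw [List.mem_singleton] at hcl
            subst hcl
            simp
          · rw [List.mem_flatMap] at hcl
            obtain ⟨h, hhB, hcl⟩ := hcl
            rw [List.mem_append, List.mem_append] at hcl
            rcases hcl with (hcl | hcl) | hcl
            · rw [List.mem_map] at hcl
              obtain ⟨b, hb, rfl⟩ := hcl
              simp
            · rw [List.mem_flatMap] at hcl
              obtain ⟨k, hk, hcl⟩ := hcl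
              rw [List.mem_cons] at hcl
              rcases hcl with rfl | hcl
              · simp
              · rw [List.mem_flatMap] at hcl
                obtain ⟨i, hi, hcl⟩ := hcl
                rw [List.mem_map] at hcl
                obtain ⟨b, hb, rfl⟩ := hcl
                simp
            · cases ha : D.A.act c with
              | none => rw [ha] at hcl; simp at hcl
              | some o =>
                cases o with
                | none => rw [ha] at hcl; simp at hcl
                | some a =>
                  rw [ha] at hcl
                  simp only [List.mem_singleton] at hcl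
                  subst hcl
                  simp
      refine ⟨_, h2, ?_⟩
      show τ (Var.X t c) = false
      rw [τX]; exact decide_eq_false hct

end Pool.Agent.CookLevin
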