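import Pool.Agent.CookLevin.Targets

set_option autoImplicit false

/-!
# TABS: a satisfying assignment of the tableau gives a witness
-/

namespace Pool.Agent.CookLevin

namespace TabS

variable {K Γ C : Type}

lemma rev_tail {l : List Γ} {i : ℕ} {a : Γ} (h : l.tail.reverse[i]? = some a) :
    l.reverse[i]? = some a ∧ i < l.length - 1 := by
  cases l with
  | nil => simp at h
  | cons b l =>
    have hi : i < l.reverse.length := (List.getElem?_eq_some_iff.1 h).1
    simp only [List.tail_cons] at h
    rw [List.reverse_cons, List.getElem?_append_left hi]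
    refine ⟨h, ?_⟩
    simpa using hi

lemma rev_cons {l : List Γ} {b : Γ} {i : ℕ} {a : Γ} (h : (b :: l).reverse[i]? = some a) :
    (l.reverse[i]? = some a ∧ i < l.length) ∨ (i = l.length ∧ a = b) := by
  rw [List.reverse_cons] at h
  rcases lt_trichotomy i l.length with h1 | h1 | h1
  · left
    rw [List.getElem?_append_left (by simpa using h1)] at h
    exact ⟨h, h1⟩
  · right
    subst h1
    rw [List.getElem?_append_right (by simp)] at h
    simp at h
    exact ⟨rfl, h.symm⟩
  · rw [List.getElem?_append_right (by simp; omega)] at h
    have := (List.getElem?_eq_some_iff.1 h).1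
    simp at this
    omega

lemma rev_lt {l : List Γ} {i : ℕ} {a : Γ} (h : l.reverse[i]? = some a) : i < l.length := by
  simpa using (List.getElem?_eq_some_iff.1 h).1

lemma step_halted (A : SM K Γ C) (x : C × (K → List Γ)) (h : A.halted x.1 = true) :
    A.step x = x := by
  simp [SM.step, h]

lemma run_succ (A : SM K Γ C) (n : ℕ) (x : C × (K → List Γ)) :
    A.run (n + 1) x = A.step (A.run n x) := by
  simp only [SM.run]
  exact Function.iterate_succ_apply' _ _ _

lemma run_halted (A : SM K Γ C) (x : C × (K → List Γ)) (n : ℕ)
    (h : A.halted (A.run n x).1 = true) (d : ℕ) : A.run (n + d) x = A.run n x := by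
  induction d with
  | zero => rfl
  | succ d ih => rw [← add_assoc, run_succ, ih, step_halted A _ h]

lemma step_fst (A : SM K Γ C) (x : C × (K → List Γ)) (h : A.halted x.1 = false) :
    (A.step x).1 = A.nxt x.1 (x.2 (A.stk x.1)).head? := by
  simp [SM.step, h]

variable [DecidableEq K]

lemma step_snd (A : SM K Γ C) (x : C × (K → List Γ)) (h : A.halted x.1 = false) (k : K) :
    (A.step x).2 k = if k = A.stk x.1 then newStk (A.act x.1) (x.2 (A.stk x.1)) else x.2 k := by
  simp [SM.step, h, Function.update_apply]

/-- length of the new stack -/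
lemma step_len (A : SM K Γ C) (x : C × (K → List Γ)) (h : A.halted x.1 = false) (k : K) :
    ((A.step x).2 k).length = A.newh x.1 k (x.2 k).length := by
  rw [step_snd A x h]
  unfold SM.newh
  by_cases hk : k = A.stk x.1
  · subst hk
    rw [if_pos rfl, if_pos rfl]
    unfold newStk
    rcases A.act x.1 with _ | (_ | a) <;> simp
  · rw [if_neg hk, if_neg hk]

lemma newh_le (A : SM K Γ C) (c : C) (k : K) (h : ℕ) : A.newh c k h ≤ h + 1 := by
  unfold SM.newh
  split
  · rcases A.act c with _ | (_ | a)
    · show h ≤ h + 1
      omega
    · show h - 1 ≤ h + 1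
      omega
    · exact le_rfl
  · omega

/-- the letters of the new stack -/
lemma step_let (A : SM K Γ C) (x : C × (K → List Γ)) (h : A.halted x.1 = false) (k : K) (i : ℕ)
    (a : Γ) (hi : ((A.step x).2 k).reverse[i]? = some a) :
    ((x.2 k).reverse[i]? = some a ∧ i < A.keep x.1 k (x.2 k).length) ∨
      (k = A.stk x.1 ∧ i = (x.2 k).length ∧ A.act x.1 = some (some a)) := by
  rw [step_snd A x h] at hi
  unfold SM.keep
  by_cases hk : k = A.stk x.1
  · subst hk
    rw [if_pos rfl] at hi
    rw [if_pos rfl]
    unfold newStk at hi
    rcases hA : A.act x.1 with _ | (_ | b)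
    · rw [hA] at hi
      left
      exact ⟨hi, rev_lt hi⟩
    · rw [hA] at hi
      left
      exact rev_tail hi
    · rw [hA] at hi
      rcases rev_cons hi with h1 | ⟨h1, h2⟩
      · left; exact h1
      · right; exact ⟨rfl, h1, by rw [h2]⟩
  · rw [if_neg hk] at hi
    rw [if_neg hk]
    left
    exact ⟨hi, rev_lt hi⟩

/-- the invariant -/
structure Inv (τ : Var K Γ C → Bool) (t N : ℕ) (x : C × (K → List Γ)) : Prop where
  X : τ (Var.X t x.1) = true
  H : ∀ k, τ (Var.H t k (x.2 k).length) = true
  S : ∀ k i a, (x.2 k).reverse[i]? = some a → τ (Var.S t k i a) = true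
  le : ∀ k, (x.2 k).length ≤ N

lemma inv_step (D : TD K Γ C) (hK : ∀ k, k ∈ D.Ks) (hG : ∀ b, b ∈ D.Gs)
    (τ : Var K Γ C → Bool) (B t N : ℕ) (x : C × (K → List Γ)) (hN : N ≤ B)
    (hh : D.A.halted x.1 = false)
    (hτ : ∀ c ∈ D.stp B t x.1, ∃ l ∈ c, τ l.2 = l.1) (hI : Inv τ t N x) :
    Inv τ (t + 1) (N + 1) (D.A.step x) := by
  have hX := hI.X
  refine ⟨?_, ?_, ?_, ?_⟩
  · rw [step_fst _ _ hh]
    have hH := hI.H (D.A.stk x.1)
    rcases hs : x.2 (D.A.stk x.1) with _ | ⟨a, l⟩
    · rw [hs] at hH
      have := hτ [(false, Var.X t x.1), (false, Var.H t (D.A.stk x.1) 0),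
        (true, Var.X (t + 1) (D.A.nxt x.1 none))] (by simp [TD.stp])
      obtain ⟨l, hl, he⟩ := this
      simp only [List.mem_cons, List.not_mem_nil, or_false] at hl
      rcases hl with rfl | rfl | rfl
      · simp [hX] at he
      · simp only [List.length_nil] at hH
        simp [hH] at he
      · simpa using he
    · have hS := hI.S (D.A.stk x.1) l.length a (by rw [hs]; simp)
      have hle := hI.le (D.A.stk x.1)
      rw [hs] at hH hle
      simp only [List.length_cons] at hH hle
      have := hτ [(false, Var.X t x.1), (false, Var.H t (D.A.stk x.1) (l.length + 1)),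
        (false, Var.S t (D.A.stk x.1) l.length a), (true, Var.X (t + 1) (D.A.nxt x.1 (some a)))]
        (by
          unfold TD.stp
          refine List.mem_append_right _ (List.mem_flatMap.2 ⟨l.length, ?_, ?_⟩)
          · rw [List.mem_range]; omega
          · refine List.mem_append_left _ (List.mem_append_left _ (List.mem_map.2 ⟨a, hG a, rfl⟩)))
      obtain ⟨y, hl, he⟩ := this
      simp only [List.mem_cons, List.not_mem_nil, or_false] at hl
      rcases hl with rfl | rfl | rfl | rfl
      · simp [hX] at he
      · simp [hH] at he
      · simp [hS] at he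
      · simpa using he
  · intro k
    rw [step_len _ _ hh]
    have hH := hI.H k
    have hle := hI.le k
    have := hτ [(false, Var.X t x.1), (false, Var.H t k (x.2 k).length),
      (true, Var.H (t + 1) k (D.A.newh x.1 k (x.2 k).length))] (by
        unfold TD.stp
        refine List.mem_append_right _ (List.mem_flatMap.2 ⟨(x.2 k).length, ?_, ?_⟩)
        · rw [List.mem_range]; omega
        · refine List.mem_append_left _ (List.mem_append_right _ (List.mem_flatMap.2 ⟨k, hK k, ?_⟩))
          exact List.mem_cons_self)
    obtain ⟨y, hl, he⟩ := this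
    simp only [List.mem_cons, List.not_mem_nil, or_false] at hl
    rcases hl with rfl | rfl | rfl
    · simp [hX] at he
    · simp [hH] at he
    · simpa using he
  · intro k i a hi
    have hH := hI.H k
    have hle := hI.le k
    rcases step_let _ _ hh k i a hi with ⟨h1, h2⟩ | ⟨h1, h2, h3⟩
    · have hS := hI.S k i a h1
      have hlt := rev_lt h1
      have := hτ [(false, Var.X t x.1), (false, Var.H t k (x.2 k).length), (false, Var.S t k i a),
        (true, Var.S (t + 1) k i a)] (by
          unfold TD.stp
          refine List.mem_append_right _ (List.mem_flatMap.2 ⟨(x.2 k).length, ?_, ?_⟩)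
          · rw [List.mem_range]; omega
          · refine List.mem_append_left _ (List.mem_append_right _
              (List.mem_flatMap.2 ⟨k, hK k, ?_⟩))
            refine List.mem_cons_of_mem _ (List.mem_flatMap.2 ⟨i, ?_, ?_⟩)
            · rw [List.mem_filter, List.mem_range]
              exact ⟨by omega, by simpa using h2⟩
            · exact List.mem_map.2 ⟨a, hG a, rfl⟩)
      obtain ⟨y, hl, he⟩ := this
      simp only [List.mem_cons, List.not_mem_nil, or_false] at hl
      rcases hl with rfl | rfl | rfl | rfl
      · simp [hX] at he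
      · simp [hH] at he
      · simp [hS] at he
      · simpa using he
    · have := hτ [(false, Var.X t x.1), (false, Var.H t (D.A.stk x.1) (x.2 k).length),
        (true, Var.S (t + 1) (D.A.stk x.1) (x.2 k).length a)] (by
          unfold TD.stp
          refine List.mem_append_right _ (List.mem_flatMap.2 ⟨(x.2 k).length, ?_, ?_⟩)
          · rw [List.mem_range]; omega
          · refine List.mem_append_right _ ?_
            rw [h3]
            simp)
      rw [← h1, ← h2] at this
      rw [← h2] at hH
      obtain ⟨y, hl, he⟩ := this
      simp only [List.mem_cons, List.not_mem_nil, or_false] at hl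
      rcases hl with rfl | rfl | rfl
      · simp [hX] at he
      · simp [hH] at he
      · simpa using he
  · intro k
    rw [step_len _ _ hh]
    have := newh_le D.A x.1 k (x.2 k).length
    have := hI.le k
    omega

lemma init_snd (A : SM K Γ C) (l : List Γ) (k : K) :
    (A.init l).2 k = if k = A.inp then l else [] := by
  simp [SM.init, Function.update_apply]

lemma inv_init (D : TD K Γ C) (hK : ∀ k, k ∈ D.Ks)
    (τ : Var K Γ C → Bool) (x : List Γ) (q m : ℕ) (hm : m ≤ q) (hE : τ (Var.E m) = true)
    (hτ : ∀ c ∈ D.ini x q, ∃ l ∈ c, τ l.2 = l.1) :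
    Inv τ 0 (x.length + m) (D.A.init (x ++ ((List.range m).map fun i =>
      if τ (Var.S 0 D.A.inp i D.b1) then D.b1 else D.b0).reverse)) := by
  refine ⟨?_, ?_, ?_, ?_⟩
  · have := hτ [(true, Var.X 0 D.A.start)] (by simp [TD.ini])
    simpa [SM.init] using this
  · intro k
    rw [init_snd]
    by_cases hk : k = D.A.inp
    · subst hk
      rw [if_pos rfl]
      have := hτ [(false, Var.E m), (true, Var.H 0 D.A.inp (m + x.length))] (by
        unfold TD.ini
        refine List.mem_append_right _ (List.mem_flatMap.2 ⟨m, ?_, ?_⟩)
        · rw [List.mem_range]; omega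
        · exact List.mem_cons_self)
      obtain ⟨y, hl, he⟩ := this
      simp only [List.mem_cons, List.not_mem_nil, or_false] at hl
      rcases hl with rfl | rfl
      · simp [hE] at he
      · simp only [List.length_append, List.length_reverse, List.length_map, List.length_range]
        rw [add_comm]
        simpa using he
    · rw [if_neg hk]
      have := hτ [(true, Var.H 0 k 0)] (by
        unfold TD.ini
        refine List.mem_append_left _ (List.mem_append_right _ (List.mem_map.2 ⟨k, ?_, rfl⟩))
        rw [List.mem_filter]
        exact ⟨hK k, by simpa using hk⟩)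
      simpa using this
  · intro k i a hi
    rw [init_snd] at hi
    by_cases hk : k = D.A.inp
    · subst hk
      rw [if_pos rfl, List.reverse_append, List.reverse_reverse] at hi
      by_cases him : i < m
      · rw [List.getElem?_append_left (by simpa using him), List.getElem?_map,
          List.getElem?_range him] at hi
        simp only [Option.map_some, Option.some.injEq] at hi
        have := hτ [(false, Var.E m), (true, Var.S 0 D.A.inp i D.b1),
          (true, Var.S 0 D.A.inp i D.b0)] (by
            unfold TD.ini
            refine List.mem_append_right _ (List.mem_flatMap.2 ⟨m, ?_, ?_⟩)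
            · rw [List.mem_range]; omega
            · refine List.mem_cons_of_mem _ (List.mem_append_right _ (List.mem_map.2 ⟨i, ?_, rfl⟩))
              rw [List.mem_filter, List.mem_range]
              exact ⟨by omega, by simpa using him⟩)
        by_cases hb : τ (Var.S 0 D.A.inp i D.b1) = true
        · rw [if_pos hb] at hi
          rw [← hi]; exact hb
        · rw [if_neg hb] at hi
          rw [← hi]
          obtain ⟨y, hl, he⟩ := this
          simp only [List.mem_cons, List.not_mem_nil, or_false] at hl
          rcases hl with rfl | rfl | rfl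
          · simp [hE] at he
          · exact absurd he hb
          · simpa using he
      · have hle : m ≤ i := by omega
        rw [List.getElem?_append_right (by simpa using hle)] at hi
        simp only [List.length_map, List.length_range] at hi
        have hlt : i - m < x.length := rev_lt hi
        have := hτ [(false, Var.E m), (true, Var.S 0 D.A.inp (m + (i - m)) a)] (by
            unfold TD.ini
            refine List.mem_append_right _ (List.mem_flatMap.2 ⟨m, ?_, ?_⟩)
            · rw [List.mem_range]; omega
            · refine List.mem_cons_of_mem _ (List.mem_append_left _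
                (List.mem_map.2 ⟨(i - m, a), ?_, rfl⟩))
              rw [List.mem_iff_getElem?]
              refine ⟨i - m, ?_⟩
              rw [List.getElem?_zip_eq_some]
              exact ⟨List.getElem?_range hlt, hi⟩)
        obtain ⟨y, hl, he⟩ := this
        simp only [List.mem_cons, List.not_mem_nil, or_false] at hl
        rcases hl with rfl | rfl
        · simp [hE] at he
        · rw [Nat.add_sub_of_le hle] at he
          simpa using he
    · rw [if_neg hk] at hi
      simp at hi
  · intro k
    rw [init_snd]
    by_cases hk : k = D.A.inp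
    · subst hk
      rw [if_pos rfl]
      simp
    · rw [if_neg hk]
      simp

end TabS

open TabS in
theorem tTABS : T_TABS := by
  intro K Γ C _ D acc x q T B V hD hS
  obtain ⟨τ, hτ⟩ := hS
  have hini : ∀ c ∈ D.ini x q, ∃ l ∈ c, τ l.2 = l.1 := fun c hc =>
    hτ c (List.mem_append_left _ hc)
  have hstp : ∀ t ≤ T, ∀ c, D.A.halted c = false → ∀ e ∈ D.stp B t c, ∃ l ∈ e, τ l.2 = l.1 := by
    intro t ht c hc e he
    refine hτ e (List.mem_append_right _ (List.mem_flatMap.2 ⟨t, ?_, List.mem_flatMap.2
      ⟨c, hD.Cs c, ?_⟩⟩))
    · rw [List.mem_range]; omega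
    · rw [hc, if_neg (by simp)]; exact he
  have hrej : ∀ t ≤ T, ∀ c, D.A.halted c = true → ∃ l ∈ ([(false, Var.X t c),
      (false, Var.S t D.A.out 0 D.rej)] : List (Bool × Var K Γ C)), τ l.2 = l.1 := by
    intro t ht c hc
    refine hτ _ (List.mem_append_right _ (List.mem_flatMap.2 ⟨t, ?_, List.mem_flatMap.2
      ⟨c, hD.Cs c, ?_⟩⟩))
    · rw [List.mem_range]; omega
    · rw [hc, if_pos rfl]; simp
  obtain ⟨l, hl, he⟩ := hini _ (by
    unfold TD.ini
    exact List.mem_append_left _ (List.mem_append_left _ List.mem_cons_self))
  rw [List.mem_map] at hl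
  obtain ⟨m, hm, rfl⟩ := hl
  rw [List.mem_range] at hm
  have hm' : m ≤ q := by omega
  let w : List Bool := ((List.range m).map fun i => τ (Var.S 0 D.A.inp i D.b1)).reverse
  have hw : w.length = m := by simp [w]
  have hW : (w.map fun b => if b then D.b1 else D.b0) = ((List.range m).map fun i =>
      if τ (Var.S 0 D.A.inp i D.b1) then D.b1 else D.b0).reverse := by
    simp only [w, List.map_reverse, List.map_map]
    rfl
  obtain ⟨n, hn, hh, ho⟩ := hD.run w (by omega)
  refine ⟨w, by omega, ?_⟩
  rw [hW] at hh ho
  set z := D.A.init (x ++ ((List.range m).map fun i =>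
      if τ (Var.S 0 D.A.inp i D.b1) then D.b1 else D.b0).reverse) with hz
  classical
  have hex : ∃ n, D.A.halted (D.A.run n z).1 = true := ⟨n, hh⟩
  let n0 := Nat.find hex
  have hn0 : D.A.halted (D.A.run n0 z).1 = true := Nat.find_spec hex
  have hn0n : n0 ≤ n := Nat.find_min' hex hh
  have hlt : ∀ t < n0, D.A.halted (D.A.run t z).1 = false := by
    intro t ht
    have := Nat.find_min hex ht
    simpa using this
  have hB := hD.B
  have hinv : ∀ t ≤ n0, Inv τ t (x.length + m + t) (D.A.run t z) := by
    intro t
    induction t with
    | zero =>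
      intro _
      exact inv_init D hD.Ks τ x q m hm' he hini
    | succ t ih =>
      intro ht
      have h1 := ih (by omega)
      have h2 := hlt t (by omega)
      rw [run_succ]
      exact inv_step D hD.Ks hD.Gs τ B t (x.length + m + t) _ (by omega) h2
        (hstp t (by omega) _ h2) h1
  have hI := hinv n0 le_rfl
  have hrun : D.A.run n z = D.A.run n0 z := by
    obtain ⟨d, rfl⟩ := Nat.exists_eq_add_of_le hn0n
    exact run_halted _ _ _ hn0 d
  rw [hrun] at ho
  by_contra hV
  rw [if_neg hV] at ho
  have hS := hI.S D.A.out 0 D.rej (by rw [ho]; rfl)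
  obtain ⟨l, hl, he⟩ := hrej n0 (by omega) _ hn0
  simp only [List.mem_cons, List.not_mem_nil, or_false] at hl
  rcases hl with rfl | rfl
  · simp [hI.X] at he
  · simp [hS] at he

end Pool.Agent.CookLevin
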