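import Pool.Agent.CookLevin.SIM
import Pool.Agent.CookLevin.TABS
import Pool.Agent.CookLevin.TABC
import Pool.Agent.CookLevin.LEN
import Pool.Agent.CookLevin.REN
import Pool.Agent.CookLevin.COOK
import Pool.Agent.CookLevin.HARD

set_option autoImplicit false

/-!
# The Cook-Levin theorem and the general criterion for NP-hardness
-/

namespace Pool.Agent.CookLevin

open Pool.Agent.PAH (DecisionProblem PolyReduces)
open Pool.Agent.SLN (Lit Satisfiable)
open Pool.Agent.PT (Dat PolyF)

/-- For every problem in NP there is a polynomial time map to formulas in conjunctive normal form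
which is correct. -/
theorem cook : T_COOK := tCOOK tSIM tTABS tTABC (tREN tLEN)

/-- If satisfiability of formulas in conjunctive normal form is reduced to `Q` by a polynomial time
function which prints the encoding of the instance of `Q`, then `Q` is NP-hard. -/
theorem hard (Q : DecisionProblem) [Dat Q.Alphabet] (f : List (List Lit) → Q.Inst)
    (G : List (List Lit) → List Q.Alphabet) (hG : PolyF G) (h1 : ∀ φ, G φ = Q.enc (f φ))
    (h2 : ∀ φ, Satisfiable φ ↔ Q.Yes (f φ)) : NPHard Q :=
  tHARD cook Q f G hG h1 h2

end Pool.Agent.CookLevin
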