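import Pool.Agent.PAH.Defs

set_option autoImplicit false

/-!
# The class NP and NP-hardness, with Mathlib's Turing machines
-/

namespace Pool.Agent.CookLevin

open Pool.Agent.PAH (DecisionProblem PolyReduces)

/-- The input of a verifier: the encoding of the instance, followed by the witness, a bit string
(written with two separate letters). -/
def encPair (P : DecisionProblem) (p : P.Inst × List Bool) : List (P.Alphabet ⊕ Bool) :=
  (P.enc p.1).map Sum.inl ++ p.2.map Sum.inr

/-- The output of a verifier. -/
def encBool (b : Bool) : List Bool := [b]

/-- The class NP: `P` has a verifier `R`, computed in polynomial time, and a polynomial `q` such that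
`a` is a yes-instance iff `R` accepts `a` with some witness of length at most `q` (length of the
encoding of `a`). -/
def InNP (P : DecisionProblem) : Prop :=
  ∃ (R : P.Inst × List Bool → Bool) (q : Polynomial ℕ),
    Nonempty (Turing.TM2ComputableInPolyTime (encPair P) encBool R) ∧
    ∀ a, P.Yes a ↔ ∃ w : List Bool, w.length ≤ q.eval (P.enc a).length ∧ R (a, w) = true

/-- NP-hardness under polynomial time many-one reductions. -/
def NPHard (Q : DecisionProblem) : Prop := ∀ P : DecisionProblem, InNP P → PolyReduces P Q

end Pool.Agent.CookLevin
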