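import Pool.Agent.CookLevin.Targets

set_option autoImplicit false

/-!
# CLV-SIM: Mathlib's stack machines are simulated by the simple stack machines
-/

namespace Pool.Agent.CookLevin

namespace SIM

open Turing Turing.TM2

/-! ### Restriction to finite sets of letters and controls -/

section restrict

variable {K Γ C : Type}

theorem step_halted (A : SM K Γ C) {x : C × (K → List Γ)} (h : A.halted x.1 = true) :
    A.step x = x := by
  unfold SM.step
  rw [if_pos h]

theorem step_run (A : SM K Γ C) {x : C × (K → List Γ)} (h : A.halted x.1 = false) :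
    (A.step x).1 = A.nxt x.1 (x.2 (A.stk x.1)).head? ∧
      (A.step x).2 (A.stk x.1) = newStk (A.act x.1) (x.2 (A.stk x.1)) ∧
      ∀ k, k ≠ A.stk x.1 → (A.step x).2 k = x.2 k := by
  classical
  unfold SM.step
  rw [if_neg (by rw [h]; exact Bool.false_ne_true)]
  refine ⟨rfl, ?_, ?_⟩
  · simp [Function.update_self]
  · intro k hk
    exact Function.update_of_ne hk _ _

theorem step_ext (A : SM K Γ C) {x y : C × (K → List Γ)} (h : A.halted x.1 = false)
    (h1 : y.1 = A.nxt x.1 (x.2 (A.stk x.1)).head?)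
    (h2 : y.2 (A.stk x.1) = newStk (A.act x.1) (x.2 (A.stk x.1)))
    (h3 : ∀ k, k ≠ A.stk x.1 → y.2 k = x.2 k) : A.step x = y := by
  obtain ⟨g1, g2, g3⟩ := step_run A h
  apply Prod.ext
  · rw [g1, h1]
  · funext k
    by_cases hk : k = A.stk x.1
    · rw [hk, g2, h2]
    · rw [g3 k hk, h3 k hk]

variable (A : SM K Γ C) (CS : Set C) (GS : Set Γ)

/-- closed sets of controls and letters -/
structure Closed : Prop where
  start : A.start ∈ CS
  nxt : ∀ c ∈ CS, ∀ o, A.nxt c o ∈ CS
  act : ∀ c ∈ CS, ∀ x, A.act c = some (some x) → x ∈ GS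

variable {A CS GS}

open scoped Classical in
/-- the restricted machine -/
noncomputable def rst (h : Closed A CS GS) : SM K GS CS where
  start := ⟨A.start, h.start⟩
  inp := A.inp
  out := A.out
  halted c := A.halted c.1
  stk c := A.stk c.1
  act c := (A.act c.1).map fun o => o.bind fun x => if hx : x ∈ GS then some ⟨x, hx⟩ else none
  nxt c o := ⟨A.nxt c.1 (o.map Subtype.val), h.nxt c.1 c.2 _⟩

/-- forget the restrictions -/
def emb (x : CS × (K → List GS)) : C × (K → List Γ) := (x.1.1, fun k => (x.2 k).map Subtype.val)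

theorem newStk_rst (h : Closed A CS GS) (c : CS) (l : List GS) :
    (newStk ((rst h).act c) l).map Subtype.val = newStk (A.act c.1) (l.map Subtype.val) := by
  classical
  unfold rst
  dsimp only
  rcases hc : A.act c.1 with _ | (_ | x)
  · simp [newStk]
  · simp [newStk, List.map_tail]
  · have hx := h.act c.1 c.2 x hc
    simp [newStk, hx]

theorem emb_step (h : Closed A CS GS) (x : CS × (K → List GS)) :
    emb ((rst h).step x) = A.step (emb x) := by
  by_cases hx : A.halted x.1.1 = true
  · rw [step_halted A (x := emb x) hx, step_halted (rst h) (x := x) hx]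
  · rw [Bool.not_eq_true] at hx
    obtain ⟨g1, g2, g3⟩ := step_run (rst h) (x := x) hx
    symm
    apply step_ext A (x := emb x) hx
    · change ((rst h).step x).1.1 = _
      rw [g1]
      change A.nxt x.1.1 _ = A.nxt x.1.1 _
      congr 1
      change ((x.2 (A.stk x.1.1)).head?).map Subtype.val =
        ((x.2 (A.stk x.1.1)).map Subtype.val).head?
      rw [List.head?_map]
    · change (((rst h).step x).2 (A.stk x.1.1)).map Subtype.val = _
      have g2' : ((rst h).step x).2 (A.stk x.1.1) =
        newStk ((rst h).act x.1) (x.2 (A.stk x.1.1)) := g2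
      rw [g2', newStk_rst]
      rfl
    · intro k hk
      change (((rst h).step x).2 k).map Subtype.val = (x.2 k).map Subtype.val
      rw [g3 k hk]

theorem emb_run (h : Closed A CS GS) (n : ℕ) (x : CS × (K → List GS)) :
    emb ((rst h).run n x) = A.run n (emb x) := by
  induction n generalizing x with
  | zero => rfl
  | succ n ih =>
    unfold SM.run at ih ⊢
    rw [Function.iterate_succ_apply, Function.iterate_succ_apply, ih, emb_step]

end restrict

/-! ### The simulating machine with all controls and letters -/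

section sim

variable {K : Type} [DecidableEq K] {Γ : K → Type} {Λ σ : Type}

def cHalt : Stmt Γ Λ σ → Bool
  | .halt => true
  | _ => false

def cStk (k₀ : K) : Stmt Γ Λ σ → K
  | .push k _ _ => k
  | .peek k _ _ => k
  | .pop k _ _ => k
  | _ => k₀

def cAct : Stmt Γ Λ σ → σ → Option (Option (Σ k, Γ k))
  | .push k f _, v => some (some ⟨k, f v⟩)
  | .pop _ _ _, _ => some none
  | _, _ => none

/-- the letter of the stack `k` -/
def dec (k : K) (o : Option (Σ k, Γ k)) : Option (Γ k) :=
  o.bind fun x => if h : x.1 = k then some (h ▸ x.2) else none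

def cNxt (m : Λ → Stmt Γ Λ σ) : Stmt Γ Λ σ → σ → Option (Σ k, Γ k) → Stmt Γ Λ σ × σ
  | .push _ _ q, v, _ => (q, v)
  | .peek k f q, v, o => (q, f v (dec k o))
  | .pop k f q, v, o => (q, f v (dec k o))
  | .load a q, v, _ => (q, a v)
  | .branch f q₁ q₂, v, _ => (cond (f v) q₁ q₂, v)
  | .goto f, v, _ => (m (f v), v)
  | .halt, v, _ => (.halt, v)

def mach (m : Λ → Stmt Γ Λ σ) (k₀ k₁ : K) (main : Λ) (v₀ : σ) :
    SM K (Σ k, Γ k) (Stmt Γ Λ σ × σ) where
  start := (m main, v₀)
  inp := k₀
  out := k₁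
  halted c := cHalt c.1
  stk c := cStk k₀ c.1
  act c := cAct c.1 c.2
  nxt c o := cNxt m c.1 c.2 o

def enc (S : ∀ k, List (Γ k)) (k : K) : List (Σ k, Γ k) := (S k).map (Sigma.mk k)

theorem dec_enc (S : ∀ k, List (Γ k)) (k : K) : dec k (enc S k).head? = (S k).head? := by
  unfold enc dec
  rcases S k with _ | ⟨a, l⟩
  · rfl
  · simp

def cfgOf (m : Λ → Stmt Γ Λ σ) : Cfg Γ Λ σ → (Stmt Γ Λ σ × σ) × (K → List (Σ k, Γ k))
  | ⟨some l, v, S⟩ => ((m l, v), enc S)
  | ⟨none, v, S⟩ => ((.halt, v), enc S)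

def sz : Stmt Γ Λ σ → ℕ
  | .push _ _ q => sz q + 1
  | .peek _ _ q => sz q + 1
  | .pop _ _ q => sz q + 1
  | .load _ q => sz q + 1
  | .branch _ q₁ q₂ => sz q₁ + sz q₂ + 1
  | .goto _ => 1
  | .halt => 0

variable (m : Λ → Stmt Γ Λ σ) (k₀ k₁ : K) (main : Λ) (v₀ : σ)

theorem run_succ {K Γ C : Type} (A : SM K Γ C) (n : ℕ) (x : C × (K → List Γ)) :
    A.run (n + 1) x = A.run n (A.step x) := by
  unfold SM.run
  rw [Function.iterate_succ_apply]

theorem run_add {K Γ C : Type} (A : SM K Γ C) (a b : ℕ) (x : C × (K → List Γ)) :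
    A.run (a + b) x = A.run b (A.run a x) := by
  unfold SM.run
  rw [Nat.add_comm, Function.iterate_add_apply]

theorem enc_update (S : ∀ k, List (Γ k)) (k : K) (l : List (Γ k)) :
    enc (Function.update S k l) k = l.map (Sigma.mk k) := by
  simp [enc]

theorem enc_update_ne (S : ∀ k, List (Γ k)) {k k' : K} (l : List (Γ k)) (h : k' ≠ k) :
    enc (Function.update S k l) k' = enc S k' := by
  simp [enc, Function.update_of_ne h]

theorem sim1 (q : Stmt Γ Λ σ) (v : σ) (S : ∀ k, List (Γ k)) :
    ∃ n, n ≤ sz q ∧ (mach m k₀ k₁ main v₀).run n ((q, v), enc S) = cfgOf m (stepAux q v S) := by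
  induction q generalizing v S with
  | push k f q ih =>
    obtain ⟨n, hn, h⟩ := ih v (Function.update S k (f v :: S k))
    refine ⟨n + 1, Nat.succ_le_succ hn, ?_⟩
    rw [run_succ, step_ext (mach m k₀ k₁ main v₀) (x := ((.push k f q, v), enc S))
      (y := ((q, v), enc (Function.update S k (f v :: S k)))) rfl rfl ?_ ?_]
    · rw [h, stepAux]
    · exact enc_update S k _
    · exact fun k' hk' => enc_update_ne S _ hk'
  | peek k f q ih =>
    obtain ⟨n, hn, h⟩ := ih (f v (S k).head?) S
    refine ⟨n + 1, Nat.succ_le_succ hn, ?_⟩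
    rw [run_succ, step_ext (mach m k₀ k₁ main v₀) (x := ((.peek k f q, v), enc S))
      (y := ((q, f v (S k).head?), enc S)) rfl ?_ rfl (fun _ _ => rfl)]
    · rw [h, stepAux]
    · change _ = (q, f v (dec k (enc S k).head?))
      rw [dec_enc]
  | pop k f q ih =>
    obtain ⟨n, hn, h⟩ := ih (f v (S k).head?) (Function.update S k (S k).tail)
    refine ⟨n + 1, Nat.succ_le_succ hn, ?_⟩
    rw [run_succ, step_ext (mach m k₀ k₁ main v₀) (x := ((.pop k f q, v), enc S))
      (y := ((q, f v (S k).head?), enc (Function.update S k (S k).tail))) rfl ?_ ?_ ?_]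
    · rw [h, stepAux]
    · change _ = (q, f v (dec k (enc S k).head?))
      rw [dec_enc]
    · change enc (Function.update S k (S k).tail) k = (enc S k).tail
      rw [enc_update, enc, List.map_tail]
    · exact fun k' hk' => enc_update_ne S _ hk'
  | load a q ih =>
    obtain ⟨n, hn, h⟩ := ih (a v) S
    refine ⟨n + 1, Nat.succ_le_succ hn, ?_⟩
    rw [run_succ, step_ext (mach m k₀ k₁ main v₀) (x := ((.load a q, v), enc S))
      (y := ((q, a v), enc S)) rfl rfl rfl (fun _ _ => rfl)]
    rw [h, stepAux]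
  | branch f q₁ q₂ ih₁ ih₂ =>
    by_cases hf : f v = true
    · obtain ⟨n, hn, h⟩ := ih₁ v S
      refine ⟨n + 1, by simp only [sz]; omega, ?_⟩
      rw [run_succ, step_ext (mach m k₀ k₁ main v₀) (x := ((.branch f q₁ q₂, v), enc S))
        (y := ((q₁, v), enc S)) rfl ?_ rfl (fun _ _ => rfl)]
      · rw [h, stepAux, hf]; rfl
      · change _ = (cond (f v) q₁ q₂, v)
        rw [hf]; rfl
    · rw [Bool.not_eq_true] at hf
      obtain ⟨n, hn, h⟩ := ih₂ v S
      refine ⟨n + 1, by simp only [sz]; omega, ?_⟩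
      rw [run_succ, step_ext (mach m k₀ k₁ main v₀) (x := ((.branch f q₁ q₂, v), enc S))
        (y := ((q₂, v), enc S)) rfl ?_ rfl (fun _ _ => rfl)]
      · rw [h, stepAux, hf]; rfl
      · change _ = (cond (f v) q₁ q₂, v)
        rw [hf]; rfl
  | goto f =>
    refine ⟨1, le_rfl, ?_⟩
    rw [run_succ, step_ext (mach m k₀ k₁ main v₀) (x := ((.goto f, v), enc S))
      (y := ((m (f v), v), enc S)) rfl rfl rfl (fun _ _ => rfl)]
    rfl
  | halt => exact ⟨0, le_rfl, rfl⟩

theorem sim (D : ℕ) (hD : ∀ l, sz (m l) ≤ D) (n : ℕ) (c c' : Cfg Γ Λ σ)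
    (h : (flip bind (TM2.step m))^[n] (some c) = some c') :
    ∃ t, t ≤ D * n ∧ (mach m k₀ k₁ main v₀).run t (cfgOf m c) = cfgOf m c' := by
  induction n generalizing c with
  | zero =>
    refine ⟨0, Nat.zero_le _, ?_⟩
    have : c = c' := by simpa using h
    rw [this]
    rfl
  | succ n ih =>
    rw [Function.iterate_succ_apply] at h
    obtain ⟨l, v, S⟩ := c
    cases l with
    | none =>
      exfalso
      have h0 : flip bind (TM2.step m) (some (⟨none, v, S⟩ : Cfg Γ Λ σ)) = none := rfl
      rw [h0] at h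
      have h1 : ∀ n, (flip bind (TM2.step m))^[n] (none : Option (Cfg Γ Λ σ)) = none := by
        intro n
        induction n with
        | zero => rfl
        | succ n ih => rw [Function.iterate_succ_apply]; exact ih
      rw [h1] at h
      exact absurd h (by simp)
    | some l =>
      have h0 : flip bind (TM2.step m) (some (⟨some l, v, S⟩ : Cfg Γ Λ σ)) =
          some (stepAux (m l) v S) := rfl
      rw [h0] at h
      obtain ⟨t, ht, h1⟩ := ih _ h
      obtain ⟨s, hs, h2⟩ := sim1 m k₀ k₁ main v₀ (m l) v S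
      refine ⟨s + t, ?_, ?_⟩
      · have := hD l
        rw [Nat.mul_succ]
        omega
      · rw [run_add]
        change (mach m k₀ k₁ main v₀).run t
          ((mach m k₀ k₁ main v₀).run s ((m l, v), enc S)) = _
        rw [h2, h1]

/-! ### Finite closed sets -/

def CS : Set (Stmt Γ Λ σ × σ) := {c | (∃ l, c.1 ∈ stmts₁ (m l)) ∨ c.1 = .halt}

theorem CS_finite [Finite Λ] [Finite σ] : (CS m).Finite := by
  have h1 : {q : Stmt Γ Λ σ | (∃ l, q ∈ stmts₁ (m l)) ∨ q = .halt}.Finite := by
    have : {q : Stmt Γ Λ σ | (∃ l, q ∈ stmts₁ (m l)) ∨ q = .halt} =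
        (⋃ l, (↑(stmts₁ (m l)) : Set (Stmt Γ Λ σ))) ∪ {.halt} := by
      ext q
      simp only [Set.mem_setOf_eq, Set.mem_union, Set.mem_iUnion, Finset.mem_coe,
        Set.mem_singleton_iff]
    rw [this]
    exact (Set.finite_iUnion fun l => Finset.finite_toSet _).union (Set.finite_singleton _)
  refine (h1.prod (Set.finite_univ (α := σ))).subset ?_
  rintro ⟨q, v⟩ h
  exact ⟨h, trivial⟩

theorem sub_push {k : K} {f : σ → Γ k} {q : Stmt Γ Λ σ} : q ∈ stmts₁ (.push k f q) := by
  classical
  simp only [stmts₁]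
  exact Finset.mem_insert_of_mem stmts₁_self

theorem sub_peek {k : K} {f : σ → Option (Γ k) → σ} {q : Stmt Γ Λ σ} :
    q ∈ stmts₁ (.peek k f q) := by
  classical
  simp only [stmts₁]
  exact Finset.mem_insert_of_mem stmts₁_self

theorem sub_pop {k : K} {f : σ → Option (Γ k) → σ} {q : Stmt Γ Λ σ} :
    q ∈ stmts₁ (.pop k f q) := by
  classical
  simp only [stmts₁]
  exact Finset.mem_insert_of_mem stmts₁_self

theorem sub_load {a : σ → σ} {q : Stmt Γ Λ σ} : q ∈ stmts₁ (.load a q) := by
  classical
  simp only [stmts₁]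
  exact Finset.mem_insert_of_mem stmts₁_self

theorem sub_left {f : σ → Bool} {q₁ q₂ : Stmt Γ Λ σ} : q₁ ∈ stmts₁ (.branch f q₁ q₂) := by
  classical
  simp only [stmts₁]
  exact Finset.mem_insert_of_mem (Finset.mem_union_left _ stmts₁_self)

theorem sub_right {f : σ → Bool} {q₁ q₂ : Stmt Γ Λ σ} : q₂ ∈ stmts₁ (.branch f q₁ q₂) := by
  classical
  simp only [stmts₁]
  exact Finset.mem_insert_of_mem (Finset.mem_union_right _ stmts₁_self)

theorem CS_sub {q q' : Stmt Γ Λ σ} {v v' : σ} (h : (q, v) ∈ CS m) (hne : q ≠ .halt)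
    (h' : q' ∈ stmts₁ q) : (q', v') ∈ CS m := by
  rcases h with ⟨l, hl⟩ | h
  · exact Or.inl ⟨l, stmts₁_trans hl h'⟩
  · exact absurd h hne

theorem CS_nxt (c : Stmt Γ Λ σ × σ) (hc : c ∈ CS m) (o : Option (Σ k, Γ k)) :
    cNxt m c.1 c.2 o ∈ CS m := by
  obtain ⟨q, v⟩ := c
  cases q with
  | push k f q => exact CS_sub m hc (by simp) sub_push
  | peek k f q => exact CS_sub m hc (by simp) sub_peek
  | pop k f q => exact CS_sub m hc (by simp) sub_pop
  | load a q => exact CS_sub m hc (by simp) sub_load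
  | branch f q₁ q₂ =>
    change (cond (f v) q₁ q₂, v) ∈ CS m
    cases f v with
    | true => exact CS_sub m hc (by simp) sub_left
    | false => exact CS_sub m hc (by simp) sub_right
  | goto f => exact Or.inl ⟨f v, stmts₁_self⟩
  | halt => exact Or.inr rfl

/-- the letters which are pushed -/
def PS : Set (Σ k, Γ k) := {x | ∃ c ∈ CS m, cAct c.1 c.2 = some (some x)}

theorem PS_finite [Finite Λ] [Finite σ] : (PS m).Finite := by
  have h1 := (CS_finite m).image (fun c : Stmt Γ Λ σ × σ => cAct c.1 c.2)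
  refine (h1.preimage (f := fun x : (Σ k, Γ k) => some (some x)) ?_).subset ?_
  · intro a _ b _ h
    simpa using h
  · rintro x ⟨c, hc, h⟩
    exact ⟨c, hc, h⟩

end sim

end SIM

open SIM in
theorem tSIM : T_SIM := by
  intro α β αΓ βΓ _ _ ea eb f ⟨h⟩
  obtain ⟨⟨tm, ia, oa⟩, time, outs⟩ := h
  letI := tm.kDecidableEq
  haveI := tm.kFin
  haveI := tm.ΛFin
  haveI := tm.σFin
  haveI := tm.Γk₀Fin
  let A' := mach tm.m tm.k₀ tm.k₁ tm.main tm.initialState
  let i' : αΓ → (Σ k, tm.Γ k) := fun x => ⟨tm.k₀, ia.symm x⟩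
  let o' : βΓ → (Σ k, tm.Γ k) := fun x => ⟨tm.k₁, oa.symm x⟩
  let GS : Set (Σ k, tm.Γ k) := PS tm.m ∪ (Set.range i' ∪ Set.range o')
  have hGS : GS.Finite := (PS_finite tm.m).union ((Set.finite_range _).union (Set.finite_range _))
  have hcl : Closed A' (CS tm.m) GS := by
    refine ⟨Or.inl ⟨tm.main, Turing.TM2.stmts₁_self⟩, fun c hc o => CS_nxt tm.m c hc o, ?_⟩
    intro c hc x hx
    exact Or.inl ⟨c, hc, hx⟩
  let A := rst hcl
  let i : αΓ → GS := fun x => ⟨i' x, Or.inr (Or.inl ⟨x, rfl⟩)⟩
  let o : βΓ → GS := fun x => ⟨o' x, Or.inr (Or.inr ⟨x, rfl⟩)⟩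
  have ho' : Function.Injective o' := by
    intro x y hxy
    have h1 : oa.symm x = oa.symm y := by simpa [o'] using hxy
    exact oa.symm.injective h1
  have ho : Function.Injective o := by
    intro x y hxy
    exact ho' (congrArg Subtype.val hxy)
  let D := Finset.univ.sup fun l => sz (tm.m l)
  have hD : ∀ l, sz (tm.m l) ≤ D := fun l =>
    Finset.le_sup (f := fun l => sz (tm.m l)) (Finset.mem_univ l)
  refine ⟨tm.K, GS, CS tm.m, inferInstance, hGS, CS_finite tm.m, A, i, o,
    Polynomial.C D * time, ho, fun a => ?_⟩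
  obtain ⟨⟨steps, hev⟩, hle⟩ := outs a
  obtain ⟨t, ht, hrun⟩ := sim tm.m tm.k₀ tm.k₁ tm.main tm.initialState D hD steps _ _ hev
  have hinit : cfgOf tm.m (Turing.initList tm (List.map ia.invFun (ea a))) =
      emb (A.init ((ea a).map i)) := by
    apply Prod.ext
    · rfl
    · funext k
      change ((Turing.initList tm (List.map ia.invFun (ea a))).stk k).map (Sigma.mk k) =
        ((A.init ((ea a).map i)).2 k).map Subtype.val
      by_cases hk : k = tm.k₀
      · subst hk
        have e1 : (Turing.initList tm (List.map ia.invFun (ea a))).stk tm.k₀ =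
            List.map ia.invFun (ea a) := by
          unfold Turing.initList
          exact dif_pos rfl
        have e2 : (A.init ((ea a).map i)).2 tm.k₀ = (ea a).map i := by
          classical
          have : A.inp = tm.k₀ := rfl
          simp only [SM.init, this, Function.update_self]
        rw [e1, e2, List.map_map, List.map_map]
        rfl
      · have e1 : (Turing.initList tm (List.map ia.invFun (ea a))).stk k = [] := by
          unfold Turing.initList
          exact dif_neg hk
        have e2 : (A.init ((ea a).map i)).2 k = [] := by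
          classical
          have : A.inp = tm.k₀ := rfl
          simp only [SM.init, this, Function.update, dif_neg hk]
        rw [e1, e2]
        rfl
  rw [hinit] at hrun
  have hrun' : emb (A.run t (A.init ((ea a).map i))) =
      cfgOf tm.m (Turing.haltList tm (List.map oa.invFun (eb (f a)))) :=
    (emb_run hcl t _).trans hrun
  refine ⟨t, ?_, ?_, ?_⟩
  · rw [Polynomial.eval_mul, Polynomial.eval_C]
    exact ht.trans (Nat.mul_le_mul_left D hle)
  · have h1 : (A.run t (A.init ((ea a).map i))).1.1.1 = .halt :=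
      congrArg (fun z => z.1.1) hrun'
    change cHalt (A.run t (A.init ((ea a).map i))).1.1.1 = true
    rw [h1]
    rfl
  · have h1 : ((A.run t (A.init ((ea a).map i))).2 tm.k₁).map Subtype.val =
        ((Turing.haltList tm (List.map oa.invFun (eb (f a)))).stk tm.k₁).map (Sigma.mk tm.k₁) :=
      congrArg (fun z => z.2 tm.k₁) hrun'
    have h2 : (Turing.haltList tm (List.map oa.invFun (eb (f a)))).stk tm.k₁ =
        List.map oa.invFun (eb (f a)) := by
      unfold Turing.haltList
      exact dif_pos rfl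
    rw [h2] at h1
    apply List.map_injective_iff.2 Subtype.val_injective
    change ((A.run t (A.init ((ea a).map i))).2 tm.k₁).map Subtype.val = _
    rw [h1, List.map_map, List.map_map]
    rfl

end Pool.Agent.CookLevin
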