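import Pool.Agent.CookLevin.Defs
import Pool.Agent.SLN.Statement
import Pool.Agent.PT.Gen

set_option autoImplicit false

/-!
# Stack machines, the tableau, and the exact targets (proofs: Blueprint.lean.txt)
-/

namespace Pool.Agent.CookLevin

open Pool.Agent.PAH (DecisionProblem PolyReduces)
open Pool.Agent.SLN (Lit Satisfiable)
open Pool.Agent.PT (Dat PolyF)

/-! ## Stack machines -/

/-- A deterministic machine with controls `C` and stacks `K` over the alphabet `Γ`.  The control `c`
works on the stack `stk c`: it leaves it (`act c = none`), pops it (`act c = some none`) or pushes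
`a` (`act c = some (some a)`); the next control depends on the symbol which was on the top of this
stack before. -/
structure SM (K Γ C : Type) where
  start : C
  inp : K
  out : K
  halted : C → Bool
  stk : C → K
  act : C → Option (Option Γ)
  nxt : C → Option Γ → C

section
variable {K Γ C : Type}

/-- the new content of the stack -/
def newStk (o : Option (Option Γ)) (l : List Γ) : List Γ :=
  match o with
  | none => l
  | some none => l.tail
  | some (some a) => a :: l

open scoped Classical in
/-- one step; halted machines stay as they are -/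
noncomputable def SM.step (A : SM K Γ C) (x : C × (K → List Γ)) : C × (K → List Γ) :=
  if A.halted x.1 = true then x
  else (A.nxt x.1 (x.2 (A.stk x.1)).head?,
    Function.update x.2 (A.stk x.1) (newStk (A.act x.1) (x.2 (A.stk x.1))))

/-- the configuration after `n` steps -/
noncomputable def SM.run (A : SM K Γ C) (n : ℕ) (x : C × (K → List Γ)) : C × (K → List Γ) :=
  A.step^[n] x

open scoped Classical in
/-- the initial configuration -/
noncomputable def SM.init (A : SM K Γ C) (l : List Γ) : C × (K → List Γ) :=
  (A.start, Function.update (fun _ => []) A.inp l)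

end

/-- SIM: Mathlib's machines are simulated by stack machines. -/
def T_SIM : Prop := ∀ {α β αΓ βΓ : Type} [Finite αΓ] [Finite βΓ] (ea : α → List αΓ)
  (eb : β → List βΓ) (f : α → β), Nonempty (Turing.TM2ComputableInPolyTime ea eb f) →
  ∃ (K Γ C : Type) (_ : Finite K) (_ : Finite Γ) (_ : Finite C) (A : SM K Γ C)
    (i : αΓ → Γ) (o : βΓ → Γ) (p : Polynomial ℕ), Function.Injective o ∧
    ∀ a, ∃ n, n ≤ p.eval (ea a).length ∧
      A.halted (A.run n (A.init ((ea a).map i))).1 = true ∧
      (A.run n (A.init ((ea a).map i))).2 A.out = (eb (f a)).map o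

/-! ## The tableau -/

/-- The variables: control at time `t`; height of the stack `k` at time `t`; cell `i` (from the
bottom) of the stack `k` at time `t`; length of the witness. -/
inductive Var (K Γ C : Type)
  | X (t : ℕ) (c : C)
  | H (t : ℕ) (k : K) (h : ℕ)
  | S (t : ℕ) (k : K) (i : ℕ) (b : Γ)
  | E (m : ℕ)

/-- satisfiability for arbitrary names of variables -/
def Sat {V : Type} (φ : List (List (Bool × V))) : Prop :=
  ∃ τ : V → Bool, ∀ c ∈ φ, ∃ l ∈ c, τ l.2 = l.1

section
variable {K Γ C : Type} [DecidableEq K]

/-- the new height of the stack `k` -/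
def SM.newh (A : SM K Γ C) (c : C) (k : K) (h : ℕ) : ℕ :=
  if k = A.stk c then (match A.act c with
    | none => h
    | some none => h - 1
    | some (some _) => h + 1) else h

/-- the number of cells of the stack `k` which are kept -/
def SM.keep (A : SM K Γ C) (c : C) (k : K) (h : ℕ) : ℕ :=
  if k = A.stk c then (match A.act c with
    | some none => h - 1
    | _ => h) else h

/-- the data of a tableau: machine, lists of all controls, stacks, letters, the letters for the
witness bits and the rejecting output -/
structure TD (K Γ C : Type) where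
  A : SM K Γ C
  Cs : List C
  Ks : List K
  Gs : List Γ
  b0 : Γ
  b1 : Γ
  rej : Γ

/-- the clauses for time 0; `x` is the given part of the input (on top), the witness has length at
most `q` -/
def TD.ini (D : TD K Γ C) (x : List Γ) (q : ℕ) : List (List (Bool × Var K Γ C)) :=
  [(List.range (q + 1)).map fun m => (true, Var.E m), [(true, Var.X 0 D.A.start)]] ++
  (D.Ks.filter fun k => decide (k ≠ D.A.inp)).map (fun k => [(true, Var.H 0 k 0)]) ++
  (List.range (q + 1)).flatMap fun m =>
    [(false, Var.E m), (true, Var.H 0 D.A.inp (m + x.length))] ::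
    (((List.range x.length).zip x.reverse).map (fun p =>
      [(false, Var.E m), (true, Var.S 0 D.A.inp (m + p.1) p.2)]) ++
    ((List.range q).filter fun i => decide (i < m)).map fun i =>
      [(false, Var.E m), (true, Var.S 0 D.A.inp i D.b1), (true, Var.S 0 D.A.inp i D.b0)])

/-- the clauses for the step at time `t` with a control `c` which is not halted; heights at most
`B` -/
def TD.stp (D : TD K Γ C) (B t : ℕ) (c : C) : List (List (Bool × Var K Γ C)) :=
  [[(false, Var.X t c), (false, Var.H t (D.A.stk c) 0), (true, Var.X (t + 1) (D.A.nxt c none))]] ++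
  (List.range (B + 1)).flatMap (fun h =>
    D.Gs.map (fun b => [(false, Var.X t c), (false, Var.H t (D.A.stk c) (h + 1)),
      (false, Var.S t (D.A.stk c) h b), (true, Var.X (t + 1) (D.A.nxt c (some b)))]) ++
    D.Ks.flatMap (fun k =>
      [(false, Var.X t c), (false, Var.H t k h), (true, Var.H (t + 1) k (D.A.newh c k h))] ::
      ((List.range (B + 1)).filter fun i => decide (i < D.A.keep c k h)).flatMap fun i =>
        D.Gs.map fun b => [(false, Var.X t c), (false, Var.H t k h), (false, Var.S t k i b),
          (true, Var.S (t + 1) k i b)]) ++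
    (match D.A.act c with
      | some (some a) => [[(false, Var.X t c), (false, Var.H t (D.A.stk c) h),
          (true, Var.S (t + 1) (D.A.stk c) h a)]]
      | _ => []))

/-- the tableau for `T` steps -/
def TD.tab (D : TD K Γ C) (x : List Γ) (q T B : ℕ) : List (List (Bool × Var K Γ C)) :=
  D.ini x q ++ (List.range (T + 1)).flatMap fun t => D.Cs.flatMap fun c =>
    if D.A.halted c = true then [[(false, Var.X t c), (false, Var.S t D.A.out 0 D.rej)]]
    else D.stp B t c

end

/-- the correctness of the tableau: general hypotheses -/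
structure TD.Ok {K Γ C : Type} (D : TD K Γ C) (acc : Γ) (x : List Γ) (q T B : ℕ)
    (V : List Bool → Bool) : Prop where
  Cs : ∀ c, c ∈ D.Cs
  Ks : ∀ k, k ∈ D.Ks
  Gs : ∀ b, b ∈ D.Gs
  ne : acc ≠ D.rej
  B : x.length + q + T ≤ B
  run : ∀ w : List Bool, w.length ≤ q → ∃ n, n ≤ T ∧
    D.A.halted (D.A.run n (D.A.init (x ++ w.map fun b => if b then D.b1 else D.b0))).1 = true ∧
    (D.A.run n (D.A.init (x ++ w.map fun b => if b then D.b1 else D.b0))).2 D.A.out =
      [if V w then acc else D.rej]

/-- TABS: if the tableau is satisfiable then there is a witness -/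
def T_TABS : Prop := ∀ {K Γ C : Type} [DecidableEq K] (D : TD K Γ C) (acc : Γ) (x : List Γ)
  (q T B : ℕ) (V : List Bool → Bool), D.Ok acc x q T B V → Sat (D.tab x q T B) →
    ∃ w : List Bool, w.length ≤ q ∧ V w = true

/-- TABC: if there is a witness then the tableau is satisfiable -/
def T_TABC : Prop := ∀ {K Γ C : Type} [DecidableEq K] (D : TD K Γ C) (acc : Γ) (x : List Γ)
  (q T B : ℕ) (V : List Bool → Bool), D.Ok acc x q T B V →
    (∃ w : List Bool, w.length ≤ q ∧ V w = true) → Sat (D.tab x q T B)

/-! ## Polynomial time -/

/-- LEN: lists of polynomial length -/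
def T_LEN : Prop := ∀ {Γ : Type} [Dat Γ] (q : Polynomial ℕ), ∃ L : List Γ → List Unit, PolyF L ∧
  ∀ x, (L x).length = q.eval x.length

/-- REN: renaming of the variables and polynomial time computability of the tableau -/
def T_REN : Prop := ∀ {K Γ C Δ : Type} [DecidableEq K] [Finite K] [Finite Γ] [Finite C]
  [Finite Δ] [Dat Δ] (D : TD K Γ C) (i : Δ → Γ) (q T B : Polynomial ℕ),
  ∃ F : List Δ → List (List Lit), PolyF F ∧
    ∀ x, Satisfiable (F x) ↔
      Sat (D.tab (x.map i) (q.eval x.length) (T.eval x.length) (B.eval x.length))

/-- COOK: for every problem in NP there is a polynomial time map to formulas in conjunctive normal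
form -/
def T_COOK : Prop := ∀ (P : DecisionProblem), InNP P → ∀ [Dat P.Alphabet],
  ∃ F : List P.Alphabet → List (List Lit), PolyF F ∧
    ∀ a, P.Yes a ↔ Satisfiable (F (P.enc a))

/-- HARD: the general criterion for NP-hardness -/
def T_HARD : Prop := ∀ (Q : DecisionProblem) [Dat Q.Alphabet] (f : List (List Lit) → Q.Inst)
  (G : List (List Lit) → List Q.Alphabet), PolyF G → (∀ φ, G φ = Q.enc (f φ)) →
  (∀ φ, Satisfiable φ ↔ Q.Yes (f φ)) → NPHard Q

end Pool.Agent.CookLevin
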